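import Pool.Agent.R646.P.Main

set_option autoImplicit false
set_option linter.unusedSectionVars false

/-!
# The power alternative for free groups, products and the groups `Gr σ`
-/

namespace Pool.Agent.R646.P

open FreeGroup

section general

variable {G H : Type*} [Group G] [Group H]

theorem Concl.of_inj {x y : G} (f : G →* H) (hf : Function.Injective f)
    (h : Concl (f x) (f y)) : Concl x y := by
  obtain ⟨p, q, hp, hq, h⟩ := h
  refine ⟨p, q, hp, hq, ?_⟩
  rw [← _root_.map_pow, ← _root_.map_pow] at h
  rcases h with h | h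
  · left
    apply hf
    rw [_root_.map_mul, _root_.map_mul]
    exact h
  · right
    exact SFree.of_map f h

theorem concl_prod (hG : ∀ x y : G, Concl x y) (hH : ∀ x y : H, Concl x y) (x y : G × H) :
    Concl x y := by
  obtain ⟨p, q, hp, hq, h⟩ := hG x.1 y.1
  rcases h with h | h
  · obtain ⟨p', q', hp', hq', h'⟩ := hH (x.2 ^ p) (y.2 ^ q)
    refine Concl.of_pow hp hq ?_
    refine ⟨p', q', hp', hq', ?_⟩
    rcases h' with h' | h'
    · left
      apply Prod.ext
      · exact h.pow_pow p' q'
      · exact h'
    · right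
      exact SFree.of_map (MonoidHom.snd G H) h'
  · refine ⟨p, q, hp, hq, Or.inr ?_⟩
    exact SFree.of_map (MonoidHom.fst G H) h

theorem SFree.lift_inj {x y : G} (h : SFree x y) :
    Function.Injective (FreeGroup.lift ![x, y]) := by
  have := h 1 1 one_pos one_pos
  rwa [pow_one, pow_one] at this

/-- the subgroup generated by `x` and `y` is free of rank two -/
def IsF2 (x y : G) : Prop := Nonempty (Subgroup.closure {x, y} ≃* FreeGroup (Fin 2))

theorem SFree.isF2 {x y : G} (h : SFree x y) : IsF2 x y := by
  have e : Subgroup.closure {x, y} = (FreeGroup.lift ![x, y]).range := by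
    rw [FreeGroup.range_lift_eq_closure]
    congr 1
    ext z
    simp [Set.mem_range, Fin.exists_fin_two, eq_comm]
    tauto
  exact ⟨(MulEquiv.subgroupCongr e).trans (MonoidHom.ofInjective h.lift_inj).symm⟩

theorem Concl.alt {x y : G} (h : Concl x y) :
    ∃ n : ℕ, 1 ≤ n ∧ (Commute (x ^ n) (y ^ n) ∨ IsF2 (x ^ n) (y ^ n)) := by
  obtain ⟨p, q, hp, hq, h⟩ := h
  refine ⟨p * q, Nat.mul_pos hp hq, ?_⟩
  rcases h with h | h
  · left
    have := h.pow_pow q p
    rwa [← pow_mul, ← pow_mul, mul_comm q p] at this
  · right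
    have := (h.pow hq hp).isF2
    rwa [← pow_mul, ← pow_mul, mul_comm q p] at this

end general

theorem concl_free {Ω : Type*} (x y : FreeGroup Ω) : Concl x y := by
  classical
  let σ : PUnit.{1} →* Equiv.Perm Ω := 1
  refine Concl.of_inj (SemidirectProduct.inl (φ := ph σ)) SemidirectProduct.inl_injective ?_
  apply concl_of_comm
  rfl

theorem concl_Gr {Ω : Type*} [DecidableEq Ω] {A : Type*} [Group A] {σ : A →* Equiv.Perm Ω}
    (hA : ∀ a b : A, Concl a b) (g x : Gr σ) : Concl g x := by
  obtain ⟨p, q, hp, hq, h⟩ := hA g.right x.right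
  refine Concl.of_pow hp hq ?_
  rw [← pow_right, ← pow_right] at h
  rcases h with h | h
  · apply concl_of_comm
    exact h
  · apply Concl.of_sfree
    exact SFree.of_map SemidirectProduct.rightHom h

end Pool.Agent.R646.P
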