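import Pool.Agent.R646.P.Pres

set_option autoImplicit false
set_option linter.unusedSectionVars false

/-!
# Power alternative without uniform power alternative
-/

namespace Pool.Agent.R646.P

open scoped commutatorElement

section tf

variable {Ω : Type*} {A : Type*} [Group A] {σ : A →* Equiv.Perm Ω}

theorem Gr_torsion_free [IsMulTorsionFree A] (g : Gr σ) (n : ℕ) (hn : 1 ≤ n) (h : g ^ n = 1) :
    g = 1 := by
  have h1 : g.right ^ n = 1 := by
    have := congrArg (SemidirectProduct.rightHom) h
    rwa [map_pow, map_one] at this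
  have h2 : g.right = 1 := by
    apply pow_left_injective (M := A) (n := n) (by omega)
    show g.right ^ n = 1 ^ n
    rw [h1, one_pow]
  have h3 : g = SemidirectProduct.inl g.left := by
    apply SemidirectProduct.ext
    · rfl
    · exact h2
  have h4 : g.left ^ n = 1 := by
    rw [h3, ← map_pow] at h
    exact SemidirectProduct.inl_injective (h.trans (map_one _).symm)
  have h5 : g.left = 1 := by
    apply pow_left_injective (M := FreeGroup Ω) (n := n) (by omega)
    show g.left ^ n = 1 ^ n
    rw [h4, one_pow]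
  rw [h3, h5, map_one]

end tf

theorem commute_of_pow {M : Type*} [Group M] [IsMulTorsionFree M] {x y : M} {m : ℕ} (hm : m ≠ 0)
    (h : Commute (x ^ m) y) : Commute x y := by
  have h1 : (y * x * y⁻¹) ^ m = x ^ m := by
    rw [conj_pow, ← h.eq, mul_inv_cancel_right]
  have h2 : y * x * y⁻¹ = x := pow_left_injective (M := M) hm h1
  exact (mul_inv_eq_iff_eq_mul.mp h2).symm

theorem not_isF2 {G : Type*} [Group G] {x y : G} {m : ℕ} (hm : m ≠ 0) (h : Commute (x ^ m) y)
    (h' : ¬ Commute x y) : ¬ IsF2 x y := by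
  rintro ⟨e⟩
  have hx : x ∈ Subgroup.closure {x, y} := Subgroup.subset_closure (Set.mem_insert _ _)
  have hy : y ∈ Subgroup.closure {x, y} :=
    Subgroup.subset_closure (Set.mem_insert_of_mem _ (Set.mem_singleton _))
  apply h'
  have h1 : Commute ((e ⟨x, hx⟩) ^ m) (e ⟨y, hy⟩) := by
    rw [← map_pow]
    apply Commute.map
    apply Subtype.ext
    exact h
  have h2 := (commute_of_pow hm h1).map e.symm
  rw [e.symm_apply_apply, e.symm_apply_apply] at h2
  exact congrArg Subtype.val h2

section final

/-- the relators -/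
def RR : Set (FreeGroup (Fin 5)) :=
  relSet (FreeGroup.of 0) (FreeGroup.of 1) (FreeGroup.of 2) (FreeGroup.of 3) (FreeGroup.of 4)

/-- the words -/
def zw (k : ℕ) : FreeGroup (Fin 5) :=
  zel (FreeGroup.of 0) (FreeGroup.of 1) (FreeGroup.of 2) (FreeGroup.of 3) k

theorem zw_pow (k : ℕ) : PresentedGroup.mk RR (zw k) ^ (2 ^ k) = 1 := by
  unfold zw
  rw [zel_map]
  apply zel_pow (r := PresentedGroup.mk RR (FreeGroup.of 4))
  rw [← relSet_map]
  rintro _ ⟨z, hz, rfl⟩
  exact PresentedGroup.one_of_mem hz

/-- the model as a homomorphism -/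
noncomputable def model : PresentedGroup RR →* Equiv.Perm MS :=
  PresentedGroup.toGroup (f := ![mx, mw, my, ms, mr]) (by
    intro z hz
    have : FreeGroup.lift ![mx, mw, my, ms, mr] z ∈
        FreeGroup.lift ![mx, mw, my, ms, mr] '' RR := ⟨z, hz, rfl⟩
    unfold RR at this
    rw [relSet_map] at this
    simp only [FreeGroup.lift_apply_of] at this
    exact mrel this)

theorem model_mk (u : FreeGroup (Fin 5)) :
    model (PresentedGroup.mk RR u) = FreeGroup.lift ![mx, mw, my, ms, mr] u := rfl

theorem zw_pow_ne {k m : ℕ} (h0 : 0 < m) (h1 : m < 2 ^ k) :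
    PresentedGroup.mk RR (zw k) ^ m ≠ 1 := by
  intro h
  have h2 := congrArg model h
  rw [map_pow, map_one, model_mk] at h2
  unfold zw at h2
  rw [zel_map] at h2
  exact mz_pow_ne h0 h1 h2

/-- the group -/
abbrev GG : Type := Gr (act RR)

theorem GG_alt (g h : GG) : Concl g h := by
  classical
  exact concl_Gr (fun a b => concl_prod concl_free concl_free a b) g h

theorem GG_not_uniform (N : ℕ) (hN : 1 ≤ N) :
    ∃ g h : GG, ¬ Commute (g ^ N) (h ^ N) ∧ ¬ IsF2 (g ^ N) (h ^ N) := by
  let z := PresentedGroup.mk RR (zw N)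
  let g : GG := SemidirectProduct.inr (zw N, 1)
  let h : GG := SemidirectProduct.inl (FreeGroup.of 1)
  have conj : ∀ m : ℕ, g ^ m * h * (g ^ m)⁻¹ = SemidirectProduct.inl (FreeGroup.of (z ^ m)) := by
    intro m
    have e : g ^ m = SemidirectProduct.inr ((zw N) ^ m, 1) := by
      show (SemidirectProduct.inr (zw N, 1)) ^ m = _
      rw [← map_pow, Prod.pow_mk, one_pow]
    rw [e, ← map_inv, ← SemidirectProduct.inl_aut]
    congr 1
    show FreeGroup.map (act RR ((zw N) ^ m, 1)) (FreeGroup.of 1) = _
    rw [FreeGroup.map.of, act_apply, map_one, inv_one, mul_one, mul_one, map_pow]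
  have hc : ¬ Commute (g ^ N) (h ^ N) := by
    intro hc
    have h1 : g ^ N * h ^ N * (g ^ N)⁻¹ = h ^ N := by rw [hc.eq, mul_inv_cancel_right]
    rw [← conj_pow, conj N] at h1
    have h2 : (FreeGroup.of (z ^ N)) ^ N = (FreeGroup.of (1 : PresentedGroup RR)) ^ N := by
      apply SemidirectProduct.inl_injective (φ := ph (act RR))
      rw [map_pow, map_pow]
      exact h1
    have h3 := pow_left_injective (M := FreeGroup (PresentedGroup RR)) (by omega : N ≠ 0) h2
    have h4 := FreeGroup.of_injective h3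
    exact zw_pow_ne (k := N) (by omega) Nat.lt_two_pow_self h4
  refine ⟨g, h, hc, ?_⟩
  refine not_isF2 (m := 2 ^ N) (by positivity) ?_ hc
  apply Commute.pow_right
  rw [← pow_mul, mul_comm, pow_mul]
  apply Commute.pow_left
  have h1 := conj (2 ^ N)
  have h2 : z ^ (2 ^ N) = 1 := zw_pow N
  rw [h2] at h1
  exact mul_inv_eq_iff_eq_mul.mp h1

end final

end Pool.Agent.R646.P
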