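import Pool.Agent.R646.P.Pow

set_option autoImplicit false
set_option linter.unusedSectionVars false

/-!
# The power alternative for elements with commuting images
-/

namespace Pool.Agent.R646.P

open FreeGroup

/-- some powers commute or generate a free group of rank two (with all their powers) -/
def Concl {G : Type*} [Group G] (x y : G) : Prop :=
  ∃ p q : ℕ, 0 < p ∧ 0 < q ∧ (Commute (x ^ p) (y ^ q) ∨ SFree (x ^ p) (y ^ q))

section general

variable {G H : Type*} [Group G] [Group H]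

theorem SFree.pow {x y : G} (h : SFree x y) {i j : ℕ} (hi : 0 < i) (hj : 0 < j) :
    SFree (x ^ i) (y ^ j) := by
  intro p q hp hq
  rw [← pow_mul, ← pow_mul]
  exact h _ _ (Nat.mul_pos hi hp) (Nat.mul_pos hj hq)

theorem SFree.of_map {x y : G} (f : G →* H) (h : SFree (f x) (f y)) : SFree x y := by
  intro p q hp hq
  have h1 := h p q hp hq
  have e : FreeGroup.lift ![f x ^ p, f y ^ q] = f.comp (FreeGroup.lift ![x ^ p, y ^ q]) := by
    ext i
    fin_cases i <;> simp
  rw [e, MonoidHom.coe_comp] at h1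
  exact h1.of_comp

theorem SFree.symm {x y : G} (h : SFree x y) : SFree y x := by
  intro p q hp hq
  have h1 := h q p hq hp
  have e : FreeGroup.lift ![y ^ p, x ^ q] =
      (FreeGroup.lift ![x ^ q, y ^ p]).comp (freeGroupCongr (Equiv.swap 0 1)).toMonoidHom := by
    ext i
    fin_cases i <;> simp
  rw [e, MonoidHom.coe_comp]
  exact h1.comp (MulEquiv.injective _)

theorem Concl.of_pow {x y : G} {i j : ℕ} (hi : 0 < i) (hj : 0 < j) (h : Concl (x ^ i) (y ^ j)) :
    Concl x y := by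
  obtain ⟨p, q, hp, hq, h⟩ := h
  refine ⟨i * p, j * q, Nat.mul_pos hi hp, Nat.mul_pos hj hq, ?_⟩
  rwa [pow_mul, pow_mul]

theorem Concl.of_commute {x y : G} (h : Commute x y) : Concl x y :=
  ⟨1, 1, one_pos, one_pos, Or.inl (h.pow_pow _ _)⟩

theorem Concl.of_sfree {x y : G} (h : SFree x y) : Concl x y :=
  ⟨1, 1, one_pos, one_pos, Or.inr (h.pow one_pos one_pos)⟩

theorem Concl.symm {x y : G} (h : Concl x y) : Concl y x := by
  obtain ⟨p, q, hp, hq, h⟩ := h
  refine ⟨q, p, hq, hp, ?_⟩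
  rcases h with h | h
  · exact Or.inl h.symm
  · exact Or.inr h.symm

theorem Concl.of_conj {x y : G} (z : G) (h : Concl (z * x * z⁻¹) (z * y * z⁻¹)) : Concl x y := by
  obtain ⟨p, q, hp, hq, h⟩ := h
  refine ⟨p, q, hp, hq, ?_⟩
  rw [conj_pow, conj_pow] at h
  rcases h with h | h
  · left
    have h1 : z * x ^ p * z⁻¹ * (z * y ^ q * z⁻¹) = z * y ^ q * z⁻¹ * (z * x ^ p * z⁻¹) := h
    have h2 : z * (x ^ p * y ^ q) * z⁻¹ = z * (y ^ q * x ^ p) * z⁻¹ := by
      calc z * (x ^ p * y ^ q) * z⁻¹ = z * x ^ p * z⁻¹ * (z * y ^ q * z⁻¹) := by group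
        _ = z * y ^ q * z⁻¹ * (z * x ^ p * z⁻¹) := h1
        _ = _ := by group
    exact mul_left_cancel (mul_right_cancel h2)
  · right
    exact SFree.of_map (MulAut.conj z).toMonoidHom h

end general

section main

variable {Ω : Type*} [DecidableEq Ω] {A : Type*} [Group A] {σ : A →* Equiv.Perm Ω}

theorem el_commute {κ : FreeGroup Ω} {a b : A} (hab : a * b = b * a) (h : ph σ b κ = κ) :
    Commute (el σ κ a) (el σ 1 b) := by
  show el σ κ a * el σ 1 b = el σ 1 b * el σ κ a
  rw [el_mul, el_mul, h, _root_.map_one, mul_one, one_mul, hab]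

theorem el_one_pow (b : A) (j : ℕ) : (el σ 1 b) ^ j = el σ 1 (b ^ j) := by
  have := zpow_left_one (σ := σ) (b := b) (j : ℤ)
  rw [zpow_natCast, zpow_natCast] at this
  exact this

/-- integer powers as natural powers of the element or its inverse -/
theorem zpow_cases {G : Type*} [Group G] (x : G) {i : ℤ} (hi : i ≠ 0) :
    ∃ n : ℕ, 1 ≤ n ∧ n = i.natAbs ∧ (x ^ i = x ^ n ∨ x ^ i = (x⁻¹) ^ n) := by
  refine ⟨i.natAbs, Int.natAbs_pos.mpr hi, rfl, ?_⟩
  rcases Int.natAbs_eq i with h | h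
  · left
    conv_lhs => rw [h]
    rw [zpow_natCast]
  · right
    conv_lhs => rw [h]
    rw [zpow_neg, zpow_natCast, inv_pow]

theorem head_mul_inv {u v : FreeGroup Ω} (h : u.norm = v.norm) (hne : u ≠ v) :
    (u * v⁻¹).toWord.head? = u.toWord.head? := by
  obtain ⟨p, a, b, h1, h2, h3, -⟩ := exists_split u⁻¹ v⁻¹
  rw [inv_inv] at h3
  have h4 : u.toWord = invRev a ++ invRev p := by
    have : u.toWord = invRev (u⁻¹).toWord := by rw [toWord_inv, invRev_invRev]
    rw [this, h1, invRev_append]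
  have ha : a ≠ [] := by
    rintro rfl
    apply hne
    have hl1 : (u⁻¹).norm = (p ++ ([] : List (Ω × Bool))).length := by
      unfold FreeGroup.norm; rw [h1]
    have hl2 : (v⁻¹).norm = (p ++ b).length := by
      unfold FreeGroup.norm; rw [h2]
    rw [norm_inv_eq] at hl1 hl2
    simp only [List.length_append, List.length_nil] at hl1 hl2
    have hb : b = [] := List.length_eq_zero_iff.mp (by omega)
    subst hb
    have : u⁻¹ = v⁻¹ := toWord_injective (by rw [h1, h2])
    exact inv_injective this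
  have ha' : invRev a ≠ [] := by
    intro h
    apply ha
    have := congrArg List.length h
    rw [invRev_length] at this
    exact List.length_eq_zero_iff.mp this
  rw [h3, h4, List.head?_append_of_ne_nil _ ha', List.head?_append_of_ne_nil _ ha']

/-- all nontrivial powers start with the first letter of `r` -/
theorem head_pow {r κ : FreeGroup Ω} {a : A} (h : Dat σ r κ a) (hr : r ≠ 1) {n : ℕ} (hn : 1 ≤ n) :
    ((cj r (el σ κ a)) ^ n).left = 1 ∨
      ((cj r (el σ κ a)) ^ n).left.toWord.head? = r.toWord.head? := by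
  rw [cj_pow_left]
  by_cases hκ : κ = 1
  · subst hκ
    have hL : L σ 1 a n = 1 := by
      unfold L
      rw [el_one_pow]
    rw [hL, mul_one]
    by_cases he : r = ph σ (a ^ n) r
    · left; rw [← he, mul_inv_cancel]
    · right; exact head_mul_inv (norm_ph _ _).symm he
  · right
    obtain ⟨h1, h2⟩ := norm_conj_pow h hκ hn
    have h3 : (r * (L σ κ a n * (ph σ (a ^ n) r)⁻¹)).norm =
        r.norm + (L σ κ a n * (ph σ (a ^ n) r)⁻¹).norm := by
      have h4 := FreeGroup.norm_mul_le r (L σ κ a n * (ph σ (a ^ n) r)⁻¹)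
      have h5 := FreeGroup.norm_mul_le (L σ κ a n) (ph σ (a ^ n) r)⁻¹
      rw [norm_inv_eq, norm_ph, norm_L h.2 hκ] at h5
      rw [← mul_assoc] at h4 ⊢
      omega
    rw [mul_assoc, (norm_mul_iff _ _).mp h3]
    rw [List.head?_append_of_ne_nil]
    rwa [Ne, toWord_eq_nil_iff]

theorem head_zpow {r κ : FreeGroup Ω} {a : A} (h : Dat σ r κ a) (hr : r ≠ 1) {i : ℤ} (hi : i ≠ 0) :
    ((cj r (el σ κ a)) ^ i).left = 1 ∨
      ((cj r (el σ κ a)) ^ i).left.toWord.head? = r.toWord.head? := by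
  obtain ⟨n, hn, -, h1 | h1⟩ := zpow_cases (cj r (el σ κ a)) hi
  · rw [h1]; exact head_pow h hr hn
  · rw [h1, cj_inv, el_inv]; exact head_pow h.inv hr hn

theorem ph_comm {a b : A} (hab : a * b = b * a) (v : FreeGroup Ω) :
    ph σ a (ph σ b v) = ph σ b (ph σ a v) := by
  rw [← ph_mul, hab, ph_mul]

/-- first letter not periodic -/
theorem case_i {r κ : FreeGroup Ω} {a b : A} (hab : a * b = b * a) (h : Dat σ r κ a)
    {c : Ω × Bool} (hc : r.toWord.head? = some c) (hper : ∀ j : ℤ, j ≠ 0 → σ (b ^ j) c.1 ≠ c.1) :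
    Concl (cj r (el σ κ a)) (el σ 1 b) := by
  have hr : r ≠ 1 := by
    rintro rfl
    simp at hc
  set g := cj r (el σ κ a) with hg
  have hgr : ∀ i : ℤ, (g ^ i).right = a ^ i := by
    intro i
    have : (g ^ i).right = g.right ^ i := map_zpow (SemidirectProduct.rightHom) g i
    rw [this, hg, cj_el]
  by_cases hfix : ∃ i : ℤ, i ≠ 0 ∧ (g ^ i).left = 1
  · obtain ⟨i, hi, hi1⟩ := hfix
    have e : g ^ i = el σ 1 (a ^ i) := SemidirectProduct.ext hi1 (hgr i)
    have hcom : Commute (g ^ i) (el σ 1 b) := by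
      rw [e]
      apply el_commute
      · have : Commute a b := hab
        exact (this.zpow_left i)
      · exact _root_.map_one _
    obtain ⟨n, hn, -, h1 | h1⟩ := zpow_cases g hi
    · refine ⟨n, 1, hn, one_pos, Or.inl ?_⟩
      rw [pow_one, ← h1]; exact hcom
    · refine ⟨n, 1, hn, one_pos, Or.inl ?_⟩
      rw [pow_one]
      rw [h1, inv_pow] at hcom
      exact (Commute.inv_left_iff).mp hcom
  · push Not at hfix
    apply Concl.of_sfree
    apply N3
    intro i i' j hi hi' hj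
    have e1 := (head_zpow h hr hi).resolve_left (hfix i hi)
    have e2 := (head_zpow h hr hi').resolve_left (hfix i' hi')
    rw [← hg] at e1 e2
    have hcp : cp (g ^ i).left (ph σ (b ^ j) (g ^ i').left) = 0 := by
      by_contra hne
      obtain ⟨-, -, h3⟩ := le_cp_iff.mp (Nat.one_le_iff_ne_zero.mpr hne)
      rw [toWord_ph] at h3
      have h4 := congrArg List.head? h3
      rw [List.head?_take, List.head?_take] at h4
      simp only [one_ne_zero, if_false] at h4
      rw [List.head?_map, e1, e2, hc] at h4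
      simp only [Option.map_some, Option.some.injEq] at h4
      exact hper j hj (congrArg Prod.fst h4).symm
    rw [hcp]
    have pos : ∀ i : ℤ, i ≠ 0 → 0 < (g ^ i).left.norm := by
      intro i hi
      exact Nat.pos_of_ne_zero (fun h0 => hfix i hi (norm_eq_zero.mp h0))
    exact ⟨by simpa using pos i hi, by simpa using pos i' hi'⟩

/-- beginnings of powers of a loxodromic -/
theorem take_L {κ : FreeGroup Ω} {a : A} (h : (κ * ph σ a κ).norm = 2 * κ.norm) (hκ : κ ≠ 1)
    {m n : ℕ} : (L σ κ a (m + n)).toWord = (L σ κ a m).toWord ++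
      (ph σ (a ^ m) (L σ κ a n)).toWord := by
  rw [L_add]
  apply (norm_mul_iff _ _).mp
  rw [← L_add, norm_ph, norm_L h hκ, norm_L h hκ, norm_L h hκ]
  ring

theorem take_L' {κ : FreeGroup Ω} {a : A} (h : (κ * ph σ a κ).norm = 2 * κ.norm) (hκ : κ ≠ 1)
    {m n : ℕ} (hmn : m ≤ n) : (L σ κ a n).toWord.take (m * κ.norm) = (L σ κ a m).toWord := by
  obtain ⟨k, rfl⟩ := Nat.exists_eq_add_of_le hmn
  rw [take_L h hκ]
  have : (L σ κ a m).toWord.length = m * κ.norm := norm_L h hκ m
  rw [← this, List.take_left']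
  rfl

/-- the algebra of case (ii) -/
theorem sq_ne {κ : FreeGroup Ω} {a b : A} (hab : a * b = b * a)
    (hper : ∀ j : ℤ, j ≠ 0 → ph σ (b ^ j) κ ≠ κ) (h : (κ * ph σ a κ).norm = 2 * κ.norm) (hκ : κ ≠ 1)
    {j : ℤ} (hj : j ≠ 0) :
    L σ κ a 2 ≠ ph σ (b ^ j) (L σ κ a 2) ∧
    L σ κ a 2 ≠ ph σ (b ^ j) (L σ (ph σ a⁻¹ κ⁻¹) a⁻¹ 2) := by
  have habj : a * b ^ j = b ^ j * a := by
    have : Commute a b := hab
    exact (this.zpow_right j)
  have habj' : a⁻¹ * b ^ j = b ^ j * a⁻¹ := by
    have : Commute a b := hab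
    exact (this.inv_left.zpow_right j)
  -- splitting a product of two blocks
  have split : ∀ x y z w : FreeGroup Ω, x.norm = κ.norm → y.norm = κ.norm → z.norm = κ.norm →
      w.norm = κ.norm → (x * y).norm = 2 * κ.norm → (z * w).norm = 2 * κ.norm →
      x * y = z * w → x = z ∧ y = w := by
    intro x y z w hx hy hz hw hxy hzw he
    have e1 := (norm_mul_iff x y).mp (by omega)
    have e2 := (norm_mul_iff z w).mp (by omega)
    rw [he, e2] at e1
    have := List.append_inj e1 (by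
      have hx' : x.toWord.length = κ.norm := hx
      have hz' : z.toWord.length = κ.norm := hz
      omega)
    exact ⟨toWord_injective this.1.symm, toWord_injective this.2.symm⟩
  constructor
  · intro he
    rw [L_succ, L_one, _root_.map_mul] at he
    have hn : (ph σ (b ^ j) κ * ph σ (b ^ j) (ph σ a κ)).norm = 2 * κ.norm := by
      rw [← _root_.map_mul, norm_ph, h]
    have := split _ _ _ _ rfl (norm_ph _ _) (norm_ph _ _) (by rw [norm_ph, norm_ph]) h hn he
    exact hper j hj this.1.symm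
  · intro he
    rw [L_succ, L_one, L_succ, L_one, _root_.map_mul] at he
    have hD : (ph σ a⁻¹ κ⁻¹ * ph σ a⁻¹ (ph σ a⁻¹ κ⁻¹)).norm = 2 * κ.norm := by
      have := (Dat.inv (σ := σ) (r := 1) (κ := κ) (a := a) ⟨by simp, h⟩).2
      rw [norm_ph, norm_inv_eq] at this
      exact this
    have hn : (ph σ (b ^ j) (ph σ a⁻¹ κ⁻¹) * ph σ (b ^ j) (ph σ a⁻¹ (ph σ a⁻¹ κ⁻¹))).norm =
        2 * κ.norm := by
      rw [← _root_.map_mul, norm_ph, hD]
    obtain ⟨e1, e2⟩ := split _ _ _ _ rfl (norm_ph _ _) (by rw [norm_ph, norm_ph, norm_inv_eq])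
      (by rw [norm_ph, norm_ph, norm_ph, norm_inv_eq]) h hn he
    -- e1 : κ = b^j a⁻¹ κ⁻¹, e2 : a κ = b^j a⁻² κ⁻¹
    have e3 : ph σ a κ = ph σ a⁻¹ κ := by
      rw [e2, ph_comm habj'.symm, ← e1]
    have e4 : κ⁻¹ = ph σ (b ^ j) (ph σ a⁻¹ κ) := by
      conv_lhs => rw [e1]
      rw [← _root_.map_inv, ← _root_.map_inv, inv_inv]
    have e5 : κ = ph σ (b ^ (2 * j)) κ := by
      have e6 : ph σ a⁻¹ (ph σ a⁻¹ κ) = κ := by
        rw [← e3, ← ph_mul, inv_mul_cancel, ph_one]
      calc κ = ph σ (b ^ j) (ph σ a⁻¹ κ⁻¹) := e1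
        _ = ph σ (b ^ j) (ph σ a⁻¹ (ph σ (b ^ j) (ph σ a⁻¹ κ))) := by rw [← e4]
        _ = ph σ (b ^ j) (ph σ (b ^ j) (ph σ a⁻¹ (ph σ a⁻¹ κ))) := by rw [ph_comm habj']
        _ = ph σ (b ^ (2 * j)) κ := by rw [e6, ← ph_mul, two_mul, zpow_add]
    exact hper (2 * j) (by omega) e5.symm

/-- case (ii), natural powers -/
theorem cp_lt {κ κ' : FreeGroup Ω} {a a' b : A} 
    (h : (κ * ph σ a κ).norm = 2 * κ.norm) (hκ : κ ≠ 1)
    (h' : (κ' * ph σ a' κ').norm = 2 * κ'.norm) (hκ' : κ' ≠ 1) (hn : κ'.norm = κ.norm)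
    (hne : L σ κ a 2 ≠ ph σ b (L σ κ' a' 2)) (n n' : ℕ) :
    cp (L σ κ a n) (ph σ b (L σ κ' a' n')) < 2 * κ.norm := by
  by_contra hcon
  push Not at hcon
  obtain ⟨h1, h2, h3⟩ := le_cp_iff.mp hcon
  rw [norm_L h hκ] at h1
  rw [norm_ph, norm_L h' hκ', hn] at h2
  have hpos : 0 < κ.norm := Nat.pos_of_ne_zero (fun h0 => hκ (norm_eq_zero.mp h0))
  have m1 : 2 ≤ n := Nat.le_of_mul_le_mul_right h1 hpos
  have m2 : 2 ≤ n' := Nat.le_of_mul_le_mul_right h2 hpos
  rw [take_L' h hκ m1, toWord_ph, ← List.map_take, ← hn, take_L' h' hκ' m2, ← toWord_ph] at h3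
  exact hne (toWord_injective h3)

theorem ne_one_inv {κ : FreeGroup Ω} {a : A} (hκ : κ ≠ 1) : ph σ a⁻¹ κ⁻¹ ≠ 1 :=
  ph_ne_one (inv_ne_one.mpr hκ)

/-- case (ii) -/
theorem case_ii {κ : FreeGroup Ω} {a b : A} (hab : a * b = b * a)
    (hper : ∀ j : ℤ, j ≠ 0 → ph σ (b ^ j) κ ≠ κ) (h : (κ * ph σ a κ).norm = 2 * κ.norm)
    (hκ : κ ≠ 1) : Concl (el σ κ a) (el σ 1 b) := by
  set g := el σ κ a with hg
  refine Concl.of_pow (i := 5) (j := 1) (by norm_num) one_pos ?_
  rw [pow_one]
  apply Concl.of_sfree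
  -- data of the inverse
  have hD : (ph σ a⁻¹ κ⁻¹ * ph σ a⁻¹ (ph σ a⁻¹ κ⁻¹)).norm = 2 * (ph σ a⁻¹ κ⁻¹).norm :=
    (Dat.inv (σ := σ) (r := 1) (κ := κ) (a := a) ⟨by simp, h⟩).2
  have hκ' : ph σ a⁻¹ κ⁻¹ ≠ 1 := ne_one_inv hκ
  have hnorm' : (ph σ a⁻¹ κ⁻¹).norm = κ.norm := by rw [norm_ph, norm_inv_eq]
  have hab' : a⁻¹ * b = b * a⁻¹ := by
    have : Commute a b := hab
    exact this.inv_left
  have hper' : ∀ j : ℤ, j ≠ 0 → ph σ (b ^ j) (ph σ a⁻¹ κ⁻¹) ≠ ph σ a⁻¹ κ⁻¹ := by
    intro j hj he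
    apply hper j hj
    have habj' : a⁻¹ * b ^ j = b ^ j * a⁻¹ := by
      have : Commute a b := hab
      exact (this.inv_left.zpow_right j)
    rw [← ph_comm habj'] at he
    have := (ph σ a⁻¹).injective he
    rw [_root_.map_inv] at this
    exact inv_injective this
  have hinvinv : ph σ (a⁻¹)⁻¹ (ph σ a⁻¹ κ⁻¹)⁻¹ = κ := by
    rw [← _root_.map_inv (ph σ a⁻¹), inv_inv, inv_inv, ← ph_mul, mul_inv_cancel, ph_one]
  -- the four sign cases
  have key : ∀ (n n' : ℕ) (j : ℤ), j ≠ 0 →
      cp (g ^ n).left (ph σ (b ^ j) (g ^ n').left) < 2 * κ.norm ∧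
      cp (g ^ n).left (ph σ (b ^ j) (g⁻¹ ^ n').left) < 2 * κ.norm ∧
      cp (g⁻¹ ^ n).left (ph σ (b ^ j) (g ^ n').left) < 2 * κ.norm ∧
      cp (g⁻¹ ^ n).left (ph σ (b ^ j) (g⁻¹ ^ n').left) < 2 * κ.norm := by
    intro n n' j hj
    refine ⟨?_, ?_, ?_, ?_⟩
    · exact cp_lt h hκ h hκ rfl (sq_ne hab hper h hκ hj).1 n n'
    · exact cp_lt h hκ hD hκ' hnorm' (sq_ne hab hper h hκ hj).2 n n'
    · have := (sq_ne hab' hper' hD hκ' hj).2
      rw [hinvinv, inv_inv] at this
      have h5 := cp_lt hD hκ' h hκ hnorm'.symm this n n'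
      rw [hnorm'] at h5
      exact h5
    · have h5 := cp_lt hD hκ' hD hκ' rfl (sq_ne hab' hper' hD hκ' hj).1 n n'
      rw [hnorm'] at h5
      exact h5
  have hlen : ∀ i : ℤ, i ≠ 0 → 5 * κ.norm ≤ ((g ^ 5) ^ i).left.norm := by
    intro i hi
    obtain ⟨n, hn, -, h1 | h1⟩ := zpow_cases (g ^ 5) hi
    · rw [h1, ← pow_mul]
      show _ ≤ (L σ κ a (5 * n)).norm
      rw [norm_L h hκ]
      exact Nat.mul_le_mul_right _ (by omega)
    · rw [h1, ← inv_pow, ← pow_mul]
      show _ ≤ (L σ (ph σ a⁻¹ κ⁻¹) a⁻¹ (5 * n)).norm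
      rw [norm_L hD hκ', hnorm']
      exact Nat.mul_le_mul_right _ (by omega)
  have hpos : 0 < κ.norm := Nat.pos_of_ne_zero (fun h0 => hκ (norm_eq_zero.mp h0))
  apply N3
  intro i i' j hi hi' hj
  have l1 := hlen i hi
  have l2 := hlen i' hi'
  have hcp : cp ((g ^ 5) ^ i).left (ph σ (b ^ j) ((g ^ 5) ^ i').left) < 2 * κ.norm := by
    obtain ⟨n, hn, -, h1 | h1⟩ := zpow_cases (g ^ 5) hi
    · obtain ⟨n', hn', -, h2 | h2⟩ := zpow_cases (g ^ 5) hi'
      · rw [h1, h2, ← pow_mul, ← pow_mul]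
        exact (key _ _ j hj).1
      · rw [h1, h2, ← inv_pow, ← pow_mul, ← pow_mul]
        exact (key _ _ j hj).2.1
    · obtain ⟨n', hn', -, h2 | h2⟩ := zpow_cases (g ^ 5) hi'
      · rw [h1, h2, ← inv_pow, ← pow_mul, ← pow_mul]
        exact (key _ _ j hj).2.2.1
      · rw [h1, h2, ← inv_pow, ← pow_mul, ← pow_mul]
        exact (key _ _ j hj).2.2.2
  omega

/-- **Elliptic case.** -/
theorem elliptic (a : A) : ∀ (m : ℕ) (k : FreeGroup Ω) (b : A), k.norm ≤ m → a * b = b * a →
    Concl (el σ k a) (el σ 1 b) := by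
  intro m
  induction m with
  | zero =>
    intro k b hk hab
    have : k = 1 := norm_eq_zero.mp (Nat.le_zero.mp hk)
    subst this
    exact Concl.of_commute (el_commute hab (_root_.map_one _))
  | succ m ih =>
    intro k b hk hab
    obtain ⟨r, κ, e, hD⟩ := exists_dat (σ := σ) a (m + 1) k hk
    by_cases hr : r = 1
    · subst hr
      simp only [one_mul, _root_.map_one, inv_one, mul_one] at e
      subst e
      by_cases hper : ∀ j : ℤ, j ≠ 0 → ph σ (b ^ j) k ≠ k
      · have hk1 : k ≠ 1 := by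
          rintro rfl
          exact hper 1 one_ne_zero (_root_.map_one _)
        exact case_ii hab hper hD.2 hk1
      · push Not at hper
        obtain ⟨j, hj, hj'⟩ := hper
        have hcom : Commute (el σ k a) ((el σ 1 b) ^ j) := by
          rw [zpow_left_one]
          apply el_commute _ hj'
          have : Commute a b := hab
          exact this.zpow_right j
        obtain ⟨n, hn, -, h1 | h1⟩ := zpow_cases (el σ 1 b) hj
        · refine ⟨1, n, one_pos, hn, Or.inl ?_⟩
          rw [pow_one, ← h1]; exact hcom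
        · refine ⟨1, n, one_pos, hn, Or.inl ?_⟩
          rw [pow_one]
          rw [h1, inv_pow] at hcom
          exact (Commute.inv_right_iff).mp hcom
    · rcases hw : r.toWord with _ | ⟨c, rest⟩
      · exact absurd (toWord_eq_nil_iff.mp hw) hr
      · have hg : el σ k a = cj r (el σ κ a) := by rw [cj_el, ← e]
        by_cases hper : ∀ j : ℤ, j ≠ 0 → σ (b ^ j) c.1 ≠ c.1
        · rw [hg]
          exact case_i hab hD (c := c) (by rw [hw]; rfl) hper
        · push Not at hper
          obtain ⟨j, hj, hj'⟩ := hper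
          -- a natural exponent
          obtain ⟨n, hn, hn'⟩ : ∃ n : ℕ, 1 ≤ n ∧ σ (b ^ n) c.1 = c.1 := by
            obtain ⟨n, hn, -, h1 | h1⟩ := zpow_cases b hj
            · exact ⟨n, hn, by rw [← h1]; exact hj'⟩
            · refine ⟨n, hn, ?_⟩
              rw [h1, inv_pow, _root_.map_inv, Equiv.Perm.inv_eq_iff_eq] at hj'
              exact hj'.symm
          have hrr : r = mk [c] * mk rest := by
            rw [mul_mk]
            have : mk r.toWord = r := mk_toWord
            rw [← this, hw]; rfl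
          have hfix : ph σ (b ^ n) (mk [c]) = mk [c] := by
            rw [ph_mk]
            simp only [List.map_cons, List.map_nil]
            rw [hn']
          set u : FreeGroup Ω := mk [c] with hu
          have hun : u.norm ≤ 1 := norm_mk_le
          have hrest : (mk rest : FreeGroup Ω).norm ≤ rest.length := norm_mk_le
          have hrn : r.norm = rest.length + 1 := by unfold FreeGroup.norm; rw [hw]; rfl
          have e' : u⁻¹ * k * ph σ a u = mk rest * κ * (ph σ a (mk rest))⁻¹ := by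
            rw [e, hrr, _root_.map_mul]; group
          have hk' : (u⁻¹ * k * ph σ a u).norm ≤ m := by
            rw [e']
            have n1 := FreeGroup.norm_mul_le (mk rest * κ) (ph σ a (mk rest))⁻¹
            have n2 := FreeGroup.norm_mul_le (mk rest) κ
            rw [norm_inv_eq, norm_ph] at n1
            have n3 := hD.1
            rw [← e] at n3
            omega
          have hab' : a * b ^ n = b ^ n * a := by
            have : Commute a b := hab
            exact this.pow_right n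
          have h1 := ih (u⁻¹ * k * ph σ a u) (b ^ n) hk' hab'
          refine Concl.of_pow (i := 1) (j := n) one_pos hn ?_
          rw [pow_one]
          apply Concl.of_conj (SemidirectProduct.inl u⁻¹)
          have c1 : SemidirectProduct.inl u⁻¹ * el σ k a * (SemidirectProduct.inl u⁻¹)⁻¹ =
              el σ (u⁻¹ * k * ph σ a u) a := by
            show cj u⁻¹ (el σ k a) = _
            rw [cj_el, _root_.map_inv, inv_inv]
          have c2 : SemidirectProduct.inl u⁻¹ * (el σ 1 b) ^ n * (SemidirectProduct.inl u⁻¹)⁻¹ =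
              el σ 1 (b ^ n) := by
            show cj u⁻¹ ((el σ 1 b) ^ n) = _
            rw [el_one_pow, cj_el, _root_.map_inv, hfix, mul_one, inv_inv, inv_mul_cancel]
          rw [c1, c2]
          exact h1

/-- two loxodromics with a long overlap commute -/
theorem overlap {κ s l : FreeGroup Ω} {a b : A} (hab : a * b = b * a)
    (h : (κ * ph σ a κ).norm = 2 * κ.norm) (hκ : κ ≠ 1) (hD : Dat σ s l b) (hl : l ≠ 1)
    {N M : ℕ} (hN : s.norm + κ.norm + l.norm ≤ N * κ.norm)
    (hM : κ.norm + l.norm ≤ M * l.norm)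
    (hcp : s.norm + κ.norm + l.norm ≤ cp ((el σ κ a) ^ N).left ((cj s (el σ l b)) ^ M).left) :
    el σ κ a * cj s (el σ l b) = cj s (el σ l b) * el σ κ a := by
  obtain ⟨-, -, h3⟩ := le_cp_iff.mp hcp
  have hκp : 0 < κ.norm := Nat.pos_of_ne_zero (fun h0 => hκ (norm_eq_zero.mp h0))
  have hlp : 0 < l.norm := Nat.pos_of_ne_zero (fun h0 => hl (norm_eq_zero.mp h0))
  have hN1 : 1 ≤ N := by
    rcases Nat.eq_zero_or_pos N with rfl | h
    · omega
    · exact h
  have hM1 : 1 ≤ M := by
    rcases Nat.eq_zero_or_pos M with rfl | h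
    · omega
    · exact h
  obtain ⟨N', rfl⟩ := Nat.exists_eq_add_of_le' hN1
  obtain ⟨M', rfl⟩ := Nat.exists_eq_add_of_le' hM1
  set K := κ.toWord with hK
  set S := s.toWord with hS
  set Λ := l.toWord with hΛ
  have lK : K.length = κ.norm := rfl
  have lS : S.length = s.norm := rfl
  have lΛ : Λ.length = l.norm := rfl
  set fa : Ω × Bool → Ω × Bool := fun p => (σ a p.1, p.2) with hfa
  set fb : Ω × Bool → Ω × Bool := fun p => (σ b p.1, p.2) with hfb
  -- structure of the first word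
  have g1 : (L σ κ a (N' + 1)).toWord = K ++ (L σ κ a N').toWord.map fa := by
    rw [add_comm, take_L h hκ, L_one, toWord_ph, pow_one]
  have g2 : (L σ κ a (N' + 1)).toWord = (L σ κ a N').toWord ++ (ph σ (a ^ N') κ).toWord := by
    have := take_L h hκ (m := N') (n := 1)
    rwa [L_one] at this
  have q1 : (L σ l b (M' + 1)).toWord = Λ ++ (L σ l b M').toWord.map fb := by
    rw [add_comm, take_L hD.2 hl, L_one, toWord_ph, pow_one]
  have q2 : (L σ l b (M' + 1)).toWord = (L σ l b M').toWord ++ (ph σ (b ^ M') l).toWord := by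
    have := take_L hD.2 hl (m := M') (n := 1)
    rwa [L_one] at this
  have lg : (L σ κ a N').toWord.length = N' * κ.norm := norm_L h hκ N'
  have lq : (L σ l b M').toWord.length = M' * l.norm := norm_L hD.2 hl M'
  have lq' : (L σ l b (M' + 1)).toWord.length = (M' + 1) * l.norm := norm_L hD.2 hl _
  have eN : (N' + 1) * κ.norm = N' * κ.norm + κ.norm := by ring
  have eM : (M' + 1) * l.norm = M' * l.norm + l.norm := by ring
  rw [eN] at hN
  rw [eM] at hM lq'
  -- structure of the second word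
  have w1 : ((cj s (el σ l b)) ^ (M' + 1)).left.toWord =
      S ++ (L σ l b (M' + 1)).toWord ++ ((ph σ (b ^ (M' + 1)) s)⁻¹).toWord := by
    rw [cj_pow_left]
    obtain ⟨n1, n2⟩ := norm_conj_pow hD hl (n := M' + 1) (by omega)
    have m1 : (s * L σ l b (M' + 1)).norm = s.norm + (L σ l b (M' + 1)).norm := by
      rw [n1, norm_L hD.2 hl]
    have m2 : (s * L σ l b (M' + 1) * (ph σ (b ^ (M' + 1)) s)⁻¹).norm =
        (s * L σ l b (M' + 1)).norm + ((ph σ (b ^ (M' + 1)) s)⁻¹).norm := by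
      rw [n2, n1, norm_inv_eq, norm_ph]; ring
    rw [(norm_mul_iff _ _).mp m2, (norm_mul_iff _ _).mp m1]
  -- the common beginning
  set P := ((el σ κ a) ^ (N' + 1)).left.toWord.take (s.norm + κ.norm + l.norm) with hP
  set Q := (L σ l b (M' + 1)).toWord.take (κ.norm + l.norm) with hQ
  have hPL : P = (L σ κ a (N' + 1)).toWord.take (s.norm + κ.norm + l.norm) := rfl
  have P1 : P = S ++ Q := by
    rw [h3, w1]
    have : s.norm + κ.norm + l.norm = S.length + (κ.norm + l.norm) := by rw [lS]; ring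
    rw [this, List.append_assoc, List.take_length_add_append,
      List.take_append_of_le_length (by omega)]
  have lQ : Q.length = κ.norm + l.norm := by
    rw [hQ, List.length_take]; omega
  have lP : P.length = s.norm + κ.norm + l.norm := by
    rw [P1, List.length_append, lQ, lS]; ring
  have Q1 : Q = Λ ++ (Q.take κ.norm).map fb := by
    have e1 : Q.take κ.norm = (L σ l b M').toWord.take κ.norm := by
      rw [hQ, List.take_take, min_eq_left (by omega), q2,
        List.take_append_of_le_length (by omega)]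
    rw [e1, hQ, q1]
    have : κ.norm + l.norm = Λ.length + κ.norm := by rw [lΛ]; ring
    rw [this, List.take_length_add_append, List.map_take]
  have P2 : P = K ++ (P.take (s.norm + l.norm)).map fa := by
    have e1 : P.take (s.norm + l.norm) = (L σ κ a N').toWord.take (s.norm + l.norm) := by
      rw [hPL, List.take_take, min_eq_left (by omega), g2,
        List.take_append_of_le_length (by omega)]
    rw [e1, hPL, g1]
    have : s.norm + κ.norm + l.norm = K.length + (s.norm + l.norm) := by rw [lK]; ring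
    rw [this, List.take_length_add_append, List.map_take]
  have P3 : P.take (s.norm + l.norm) = S ++ Λ := by
    rw [P1, ← lS, List.take_length_add_append, Q1,
      List.take_append_of_le_length (by omega), ← lΛ, List.take_length]
  have P4 : P = K ++ (S ++ Λ).map fa := by rw [← P3, ← P2]
  have P5 : S ++ Q.take κ.norm = K ++ S.map fa := by
    have e1 : P.take (s.norm + κ.norm) = S ++ Q.take κ.norm := by
      rw [P1, ← lS, List.take_length_add_append]
    have e2 : P.take (s.norm + κ.norm) = K ++ S.map fa := by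
      rw [P4, add_comm, ← lK, List.take_length_add_append, List.map_append,
        List.take_append_of_le_length (by rw [List.length_map]; exact le_of_eq lS.symm)]
      rw [← lS]
      have : S.length = (S.map fa).length := (List.length_map _).symm
      rw [this, List.take_length]
    rw [← e1, e2]
  -- group elements
  have mK : mk K = κ := mk_toWord
  have mS : mk S = s := mk_toWord
  have mΛ : mk Λ = l := mk_toWord
  have E1 : mk P = κ * ph σ a (s * l) := by
    rw [P4, ← mul_mk, mK, ← ph_mk, ← mul_mk, mS, mΛ]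
  have E2 : s * mk (Q.take κ.norm) = κ * ph σ a s := by
    rw [← mS, mul_mk, P5, ← mul_mk, mK, ← ph_mk]
  have E3 : mk P = s * (l * ph σ b (mk (Q.take κ.norm))) := by
    rw [P1, ← mul_mk, mS]
    congr 1
    conv_lhs => rw [Q1]
    rw [← mul_mk, mΛ, ← ph_mk]
  have E4 : mk (Q.take κ.norm) = s⁻¹ * (κ * ph σ a s) := by rw [← E2]; group
  rw [cj_el, el_mul, el_mul, hab]
  apply SemidirectProduct.ext
  · show κ * ph σ a (s * l * (ph σ b s)⁻¹) = s * l * (ph σ b s)⁻¹ * ph σ b κ
    have E5 : κ * ph σ a (s * l) = s * l * (ph σ b s)⁻¹ * ph σ b κ * ph σ b (ph σ a s) := by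
      rw [← E1, E3, E4, _root_.map_mul, _root_.map_inv, _root_.map_mul]
      simp only [mul_assoc]
    rw [_root_.map_mul, _root_.map_inv, ← mul_assoc, E5, ph_comm hab, mul_inv_cancel_right]
  · rfl

/-- **Loxodromic case.** -/
theorem lox {κ s l : FreeGroup Ω} {a b : A} (hab : a * b = b * a)
    (h : (κ * ph σ a κ).norm = 2 * κ.norm) (hκ : κ ≠ 1) (hD : Dat σ s l b) (hl : l ≠ 1) :
    Concl (el σ κ a) (cj s (el σ l b)) := by
  by_cases hc : Commute (el σ κ a) (cj s (el σ l b))
  · exact Concl.of_commute hc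
  by_cases hc' : Commute (el σ κ a)⁻¹ (cj s (el σ l b))
  · exact Concl.of_commute (Commute.inv_left_iff.mp hc')
  set g := el σ κ a with hg
  set x := cj s (el σ l b) with hx
  set R := s.norm + κ.norm + l.norm with hR
  have hκp : 0 < κ.norm := Nat.pos_of_ne_zero (fun h0 => hκ (norm_eq_zero.mp h0))
  have hlp : 0 < l.norm := Nat.pos_of_ne_zero (fun h0 => hl (norm_eq_zero.mp h0))
  have hDκ : Dat σ 1 κ a := ⟨by simp, h⟩
  have hκi := (hDκ.inv).2
  have hκ' : ph σ a⁻¹ κ⁻¹ ≠ 1 := ne_one_inv hκ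
  have hl' : ph σ b⁻¹ l⁻¹ ≠ 1 := ne_one_inv hl
  have nκ : (ph σ a⁻¹ κ⁻¹).norm = κ.norm := by rw [norm_ph, norm_inv_eq]
  have nl : (ph σ b⁻¹ l⁻¹).norm = l.norm := by rw [norm_ph, norm_inv_eq]
  have C0 : Commute a b := hab
  have gi : g⁻¹ = el σ (ph σ a⁻¹ κ⁻¹) a⁻¹ := rfl
  have xi : x⁻¹ = cj s (el σ (ph σ b⁻¹ l⁻¹) b⁻¹) := by rw [hx, cj_inv, el_inv]
  -- four sign cases
  have key : ∀ N M : ℕ, R ≤ N * κ.norm → R ≤ M * l.norm →
      cp (g ^ N).left (x ^ M).left < R ∧ cp (g⁻¹ ^ N).left (x ^ M).left < R ∧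
      cp (g ^ N).left (x⁻¹ ^ M).left < R ∧ cp (g⁻¹ ^ N).left (x⁻¹ ^ M).left < R := by
    intro N M hN hM
    refine ⟨?_, ?_, ?_, ?_⟩
    · by_contra hcon
      push Not at hcon
      exact hc (overlap (N := N) (M := M) hab h hκ hD hl hN (by omega) hcon)
    · by_contra hcon
      push Not at hcon
      rw [gi] at hcon hc'
      exact hc' (overlap (N := N) (M := M) C0.inv_left hκi hκ' hD hl (by rw [nκ]; exact hN) (by rw [nκ]; omega)
        (by rw [nκ]; exact hcon))
    · by_contra hcon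
      push Not at hcon
      rw [xi] at hcon
      have := overlap (N := N) (M := M) C0.inv_right h hκ hD.inv hl' (by rw [nl]; exact hN)
        (by rw [nl]; omega)
        (by rw [nl]; exact hcon)
      rw [← xi] at this
      exact hc (Commute.inv_right_iff.mp this)
    · by_contra hcon
      push Not at hcon
      rw [xi, gi] at hcon
      have := overlap (N := N) (M := M) C0.inv_left.inv_right hκi hκ' hD.inv hl'
        (by rw [nκ, nl]; exact hN)
        (by rw [nκ, nl]; omega) (by rw [nκ, nl]; exact hcon)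
      rw [← xi, ← gi] at this
      exact hc' (Commute.inv_right_iff.mp this)
  refine Concl.of_pow (i := 2 * R + 1) (j := 2 * R + 1) (by omega) (by omega) ?_
  apply Concl.of_sfree
  -- lengths
  have len1 : ∀ N : ℕ, (g ^ N).left.norm = N * κ.norm := fun N => norm_L h hκ N
  have len1' : ∀ N : ℕ, (g⁻¹ ^ N).left.norm = N * κ.norm := by
    intro N
    rw [gi]
    show (L σ _ _ N).norm = _
    rw [norm_L hκi hκ', nκ]
  have len2 : ∀ M : ℕ, 1 ≤ M → M * l.norm ≤ (x ^ M).left.norm := by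
    intro M hM
    rw [hx, cj_pow_left, (norm_conj_pow hD hl hM).2]; omega
  have len2' : ∀ M : ℕ, 1 ≤ M → M * l.norm ≤ (x⁻¹ ^ M).left.norm := by
    intro M hM
    rw [xi, cj_pow_left, (norm_conj_pow hD.inv hl' hM).2, nl]; omega
  apply N4
  intro i j hi hj
  obtain ⟨n, hn, -, h1⟩ := zpow_cases (g ^ (2 * R + 1)) hi
  obtain ⟨n', hn', -, h2⟩ := zpow_cases (x ^ (2 * R + 1)) hj
  have b1 : 2 * R + 1 ≤ (2 * R + 1) * n * κ.norm := by
    calc 2 * R + 1 = (2 * R + 1) * 1 * 1 := by ring
      _ ≤ (2 * R + 1) * n * κ.norm := Nat.mul_le_mul (Nat.mul_le_mul_left _ hn) hκp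
  have b2 : 2 * R + 1 ≤ (2 * R + 1) * n' * l.norm := by
    calc 2 * R + 1 = (2 * R + 1) * 1 * 1 := by ring
      _ ≤ (2 * R + 1) * n' * l.norm := Nat.mul_le_mul (Nat.mul_le_mul_left _ hn') hlp
  have pos2 : 1 ≤ (2 * R + 1) * n' := Nat.mul_pos (by omega) hn'
  obtain ⟨k1, k2, k3, k4⟩ := key ((2 * R + 1) * n) ((2 * R + 1) * n') (by omega) (by omega)
  have m1 := len1 ((2 * R + 1) * n)
  have m1' := len1' ((2 * R + 1) * n)
  have m2 := len2 _ pos2
  have m2' := len2' _ pos2
  rcases h1 with h1 | h1 <;> rcases h2 with h2 | h2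
  · rw [h1, h2, ← pow_mul, ← pow_mul]; constructor <;> omega
  · rw [h1, h2, ← inv_pow, ← pow_mul, ← pow_mul]; constructor <;> omega
  · rw [h1, h2, ← inv_pow, ← pow_mul, ← pow_mul]; constructor <;> omega
  · rw [h1, h2, ← inv_pow, ← inv_pow, ← pow_mul, ← pow_mul]; constructor <;> omega

/-- **Main theorem.** -/
theorem concl_of_comm (g x : Gr σ) (hab : g.right * x.right = x.right * g.right) : Concl g x := by
  obtain ⟨k, a⟩ := g
  obtain ⟨l0, b⟩ := x
  change a * b = b * a at hab
  change Concl (el σ k a) (el σ l0 b)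
  obtain ⟨r, κ, e, hD⟩ := exists_dat (σ := σ) a _ k le_rfl
  have hg : el σ k a = cj r (el σ κ a) := by rw [cj_el, ← e]
  apply Concl.of_conj (SemidirectProduct.inl r⁻¹)
  have c1 : SemidirectProduct.inl r⁻¹ * el σ k a * (SemidirectProduct.inl r⁻¹)⁻¹ = el σ κ a := by
    rw [hg]; unfold cj; rw [_root_.map_inv]; group
  have c2 : SemidirectProduct.inl r⁻¹ * el σ l0 b * (SemidirectProduct.inl r⁻¹)⁻¹ =
      el σ (r⁻¹ * l0 * (ph σ b r⁻¹)⁻¹) b := by
    show cj r⁻¹ (el σ l0 b) = _
    rw [cj_el]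
  rw [c1, c2]
  set l1 := r⁻¹ * l0 * (ph σ b r⁻¹)⁻¹ with hl1
  by_cases hκ : κ = 1
  · subst hκ
    exact (elliptic b _ l1 a le_rfl hab.symm).symm
  · obtain ⟨s, l, e', hD'⟩ := exists_dat (σ := σ) b _ l1 le_rfl
    have hx : el σ l1 b = cj s (el σ l b) := by rw [cj_el, ← e']
    by_cases hl : l = 1
    · subst hl
      apply Concl.of_conj (SemidirectProduct.inl s⁻¹)
      have c3 : SemidirectProduct.inl s⁻¹ * el σ l1 b * (SemidirectProduct.inl s⁻¹)⁻¹ =
          el σ 1 b := by
        rw [hx]; unfold cj; rw [_root_.map_inv]; group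
      have c4 : SemidirectProduct.inl s⁻¹ * el σ κ a * (SemidirectProduct.inl s⁻¹)⁻¹ =
          el σ (s⁻¹ * κ * (ph σ a s⁻¹)⁻¹) a := by
        show cj s⁻¹ (el σ κ a) = _
        rw [cj_el]
      rw [c3, c4]
      exact elliptic a _ _ b le_rfl hab
    · rw [hx]
      exact lox hab hD.2 hκ hD' hl

end main

end Pool.Agent.R646.P
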