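import Pool.Agent.R646.P.Word

set_option autoImplicit false
set_option linter.unusedSectionVars false

/-!
# Ping-pong for semidirect products of free groups with groups permuting the letters
-/

namespace Pool.Agent.R646.P

open FreeGroup
open scoped Pointwise

/-- all powers of `x` and `y` generate free groups of rank two -/
def SFree {G : Type*} [Group G] (x y : G) : Prop :=
  ∀ p q : ℕ, 0 < p → 0 < q → Function.Injective (FreeGroup.lift ![x ^ p, y ^ q])

theorem free_of_pp {G α : Type*} [Group G] [MulAction G α] (x y : G) (X Y : Set α)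
    (hX : X.Nonempty) (hY : Y.Nonempty) (hd : Disjoint X Y)
    (h1 : ∀ i : ℤ, i ≠ 0 → ∀ p ∈ Y, x ^ i • p ∈ X)
    (h2 : ∀ j : ℤ, j ≠ 0 → ∀ p ∈ X, y ^ j • p ∈ Y) :
    Function.Injective (FreeGroup.lift ![x, y]) := by
  have e : FreeGroup.lift ![x, y] =
      (Monoid.CoprodI.lift fun i => FreeGroup.lift fun _ => ![x, y] i).comp
        (@freeGroupEquivCoprodI (Fin 2)).toMonoidHom := by
    ext i
    simp
  rw [e, MonoidHom.coe_comp]
  refine Function.Injective.comp ?_ (MulEquiv.injective freeGroupEquivCoprodI)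
  let H : Fin 2 → Type _ := fun _i => FreeGroup Unit
  let f : ∀ i, H i →* G := fun i => FreeGroup.lift fun _ => ![x, y] i
  apply Monoid.CoprodI.lift_injective_of_ping_pong f _ ![X, Y]
  · intro i
    fin_cases i
    · exact hX
    · exact hY
  · intro i j hij
    fin_cases i <;> fin_cases j
    · exact absurd rfl hij
    · exact hd
    · exact hd.symm
    · exact absurd rfl hij
  · rintro i j hij
    refine FreeGroup.freeGroupUnitEquivInt.forall_congr_left.mpr ?_
    intro n hne1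
    change FreeGroup.lift (fun _ => ![x, y] i) (FreeGroup.of () ^ n) • ![X, Y] j ⊆ ![X, Y] i
    simp only [map_zpow, FreeGroup.lift_apply_of]
    have hnne0 : n ≠ 0 := by
      rintro rfl
      apply hne1
      simp [H, FreeGroup.freeGroupUnitEquivInt]
    rintro _ ⟨p, hp, rfl⟩
    fin_cases i <;> fin_cases j
    · exact absurd rfl hij
    · exact h1 n hnne0 p hp
    · exact h2 n hnne0 p hp
    · exact absurd rfl hij
  · right
    refine ⟨0, ?_⟩
    simp only [H]
    rw [FreeGroup.freeGroupUnitEquivInt.cardinal_eq, Cardinal.mk_denumerable]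
    exact Cardinal.natCast_le_aleph0

theorem sfree_of_pp {G α : Type*} [Group G] [MulAction G α] (x y : G) (X Y : Set α)
    (hX : X.Nonempty) (hY : Y.Nonempty) (hd : Disjoint X Y)
    (h1 : ∀ i : ℤ, i ≠ 0 → ∀ p ∈ Y, x ^ i • p ∈ X)
    (h2 : ∀ j : ℤ, j ≠ 0 → ∀ p ∈ X, y ^ j • p ∈ Y) : SFree x y := by
  intro p q hp hq
  apply free_of_pp (x ^ p) (y ^ q) X Y hX hY hd
  · intro i hi z hz
    rw [← zpow_natCast, ← zpow_mul]
    exact h1 _ (by positivity) z hz
  · intro i hi z hz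
    rw [← zpow_natCast, ← zpow_mul]
    exact h2 _ (by positivity) z hz

section main

variable {Ω : Type*} [DecidableEq Ω] {A : Type*} [Group A] (σ : A →* Equiv.Perm Ω)

/-- the action -/
abbrev ph : A →* MulAut (FreeGroup Ω) := (pAut Ω).comp σ

/-- the group -/
abbrev Gr : Type _ := (FreeGroup Ω) ⋊[ph σ] A

variable {σ}

/-- the action on vertices -/
instance vertexAction : MulAction (Gr σ) (FreeGroup Ω) where
  smul g v := g.left * ph σ g.right v
  one_smul v := by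
    show (1 : Gr σ).left * ph σ (1 : Gr σ).right v = v
    simp
  mul_smul g h v := by
    show (g * h).left * ph σ (g * h).right v = g.left * ph σ g.right (h.left * ph σ h.right v)
    simp [mul_assoc]

theorem vs_def (g : Gr σ) (v : FreeGroup Ω) : g • v = g.left * ph σ g.right v := rfl

theorem vs_one (g : Gr σ) : g • (1 : FreeGroup Ω) = g.left := by
  rw [vs_def, _root_.map_one, mul_one]

theorem norm_ph (a : A) (v : FreeGroup Ω) : (ph σ a v).norm = v.norm := norm_pAut _ _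

theorem dist_smul (g : Gr σ) (v w : FreeGroup Ω) : ((g • v)⁻¹ * (g • w)).norm = (v⁻¹ * w).norm := by
  rw [vs_def, vs_def]
  have : (g.left * ph σ g.right v)⁻¹ * (g.left * ph σ g.right w) = ph σ g.right (v⁻¹ * w) := by
    rw [_root_.map_mul, _root_.map_inv]; group
  rw [this, norm_ph]

theorem norm_inv_left (g : Gr σ) : (g⁻¹).left.norm = g.left.norm := by
  rw [SemidirectProduct.inv_left, norm_ph, norm_inv_eq]

/-- the reflection formula -/
theorem cp_smul (g : Gr σ) (v : FreeGroup Ω) : cp (g • v) g.left + cp v (g⁻¹).left = g.left.norm := by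
  have h1 := two_cp (g • v) g.left
  have h2 := two_cp v (g⁻¹).left
  have h3 : ((g • v)⁻¹ * g.left).norm = v.norm := by
    rw [← vs_one, dist_smul, mul_one, norm_inv_eq]
  have h4 : (g • v).norm = (v⁻¹ * (g⁻¹).left).norm := by
    rw [← vs_one (g⁻¹)]
    have := dist_smul g v (g⁻¹ • 1)
    rw [smul_inv_smul, mul_one, norm_inv_eq] at this
    exact this
  have h5 := norm_inv_left g
  omega

/-- points close to a target -/
def Tg (s : Set (FreeGroup Ω)) : Set (FreeGroup Ω) := {v | ∃ t ∈ s, t.norm < 2 * cp v t}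

/-- the orbit of the base point under nontrivial powers -/
def Orb (x : Gr σ) : Set (FreeGroup Ω) := {t | ∃ i : ℤ, i ≠ 0 ∧ t = (x ^ i).left}

theorem pp1 {x : Gr σ} {s : Set (FreeGroup Ω)}
    (h : ∀ i : ℤ, i ≠ 0 → ∀ t ∈ s, 2 * cp (x ^ i).left t < (x ^ i).left.norm ∧
      2 * cp (x ^ i).left t < t.norm) :
    Disjoint (Tg (Orb x)) (Tg s) ∧ ∀ i : ℤ, i ≠ 0 → ∀ v ∈ Tg s, x ^ i • v ∈ Tg (Orb x) := by
  constructor
  · rw [Set.disjoint_left]
    rintro v ⟨t, ⟨i, hi, rfl⟩, ht⟩ ⟨t', ht', ht''⟩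
    have h1 := h i hi t' ht'
    have h2 := cp_ultra (x ^ i).left v t'
    rw [cp_comm v] at ht
    rcases min_le_iff.mp h2 with h3 | h3 <;> omega
  · rintro i hi v ⟨t, ht, ht'⟩
    refine ⟨(x ^ i).left, ⟨i, hi, rfl⟩, ?_⟩
    have h1 := cp_smul (x ^ i) v
    have h2 := h (-i) (neg_ne_zero.mpr hi) t ht
    rw [zpow_neg] at h2
    have h3 := cp_ultra ((x ^ i)⁻¹).left v t
    rw [cp_comm _ v] at h3
    rw [norm_inv_left] at h2
    rcases min_le_iff.mp h3 with h4 | h4 <;> omega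

theorem Tg_nonempty {s : Set (FreeGroup Ω)} {t : FreeGroup Ω} (ht : t ∈ s) (h : 0 < t.norm) :
    (Tg s).Nonempty := by
  refine ⟨t, t, ht, ?_⟩
  have := two_cp t t
  rw [inv_mul_cancel, FreeGroup.norm_one] at this
  omega

/-- two loxodromics -/
theorem N4 {x y : Gr σ} (h : ∀ i j : ℤ, i ≠ 0 → j ≠ 0 →
    2 * cp (x ^ i).left (y ^ j).left < (x ^ i).left.norm ∧
    2 * cp (x ^ i).left (y ^ j).left < (y ^ j).left.norm) : SFree x y := by
  have h1 := pp1 (x := x) (s := Orb y) (by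
    rintro i hi t ⟨j, hj, rfl⟩
    exact h i j hi hj)
  have h2 := pp1 (x := y) (s := Orb x) (by
    rintro i hi t ⟨j, hj, rfl⟩
    have := h j i hj hi
    rw [cp_comm] at this
    exact ⟨this.2, this.1⟩)
  have h11 := h 1 1 one_ne_zero one_ne_zero
  refine sfree_of_pp x y (Tg (Orb x)) (Tg (Orb y)) ?_ ?_ h1.1 h1.2 h2.2
  · exact Tg_nonempty (t := (x ^ (1 : ℤ)).left) ⟨1, one_ne_zero, rfl⟩ (by omega)
  · exact Tg_nonempty (t := (y ^ (1 : ℤ)).left) ⟨1, one_ne_zero, rfl⟩ (by omega)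

theorem cp_fix {y : Gr σ} (hy : y.left = 1) (v w : FreeGroup Ω) : cp (y • v) (y • w) = cp v w := by
  have h1 := two_cp (y • v) (y • w)
  have h2 := two_cp v w
  rw [dist_smul] at h1
  have h3 : ∀ v : FreeGroup Ω, (y • v).norm = v.norm := by
    intro v
    rw [vs_def, hy, one_mul, norm_ph]
  rw [h3, h3] at h1
  omega

theorem norm_fix {y : Gr σ} (hy : y.left = 1) (v : FreeGroup Ω) : (y • v).norm = v.norm := by
  rw [vs_def, hy, one_mul, norm_ph]

theorem zpow_left_one {b : A} (j : ℤ) : ((⟨1, b⟩ : Gr σ) ^ j) = ⟨1, b ^ j⟩ := by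
  have h : (⟨1, b⟩ : Gr σ) = SemidirectProduct.inr b := rfl
  rw [h, ← map_zpow]
  rfl

/-- a loxodromic and an elliptic -/
theorem N3 {x : Gr σ} {b : A} (h : ∀ i i' j : ℤ, i ≠ 0 → i' ≠ 0 → j ≠ 0 →
    2 * cp (x ^ i).left (ph σ (b ^ j) (x ^ i').left) < (x ^ i).left.norm ∧
    2 * cp (x ^ i).left (ph σ (b ^ j) (x ^ i').left) < (x ^ i').left.norm) :
    SFree x (⟨1, b⟩ : Gr σ) := by
  let s : Set (FreeGroup Ω) := {t | ∃ j i' : ℤ, j ≠ 0 ∧ i' ≠ 0 ∧ t = ph σ (b ^ j) (x ^ i').left}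
  have h1 := pp1 (x := x) (s := s) (by
    rintro i hi t ⟨j, i', hj, hi', rfl⟩
    rw [norm_ph]
    exact h i i' j hi hi' hj)
  have h11 := h 1 1 1 one_ne_zero one_ne_zero one_ne_zero
  refine sfree_of_pp x (⟨1, b⟩ : Gr σ) (Tg (Orb x)) (Tg s) ?_ ?_ h1.1 h1.2 ?_
  · exact Tg_nonempty (t := (x ^ (1 : ℤ)).left) ⟨1, one_ne_zero, rfl⟩ (by omega)
  · refine Tg_nonempty (t := ph σ (b ^ (1 : ℤ)) (x ^ (1 : ℤ)).left)
      ⟨1, 1, one_ne_zero, one_ne_zero, rfl⟩ ?_
    rw [norm_ph]; omega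
  · rintro j hj v ⟨t, ⟨i', hi', rfl⟩, ht⟩
    refine ⟨ph σ (b ^ j) (x ^ i').left, ⟨j, i', hj, hi', rfl⟩, ?_⟩
    rw [zpow_left_one]
    have e : ph σ (b ^ j) (x ^ i').left = (⟨1, b ^ j⟩ : Gr σ) • (x ^ i').left := by
      rw [vs_def]; simp
    rw [e, cp_fix rfl, norm_fix rfl]
    exact ht

end main

end Pool.Agent.R646.P
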