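import Pool.Agent.R646.P.Ping

set_option autoImplicit false
set_option linter.unusedSectionVars false

/-!
# Powers of elements, cyclic reduction
-/

namespace Pool.Agent.R646.P

open FreeGroup

section main

variable {Ω : Type*} [DecidableEq Ω] {A : Type*} [Group A] {σ : A →* Equiv.Perm Ω}

theorem toWord_ph (a : A) (v : FreeGroup Ω) :
    (ph σ a v).toWord = v.toWord.map (fun p => (σ a p.1, p.2)) := toWord_pAut _ _

theorem ph_mk (a : A) (L : List (Ω × Bool)) :
    ph σ a (mk L) = mk (L.map (fun p => (σ a p.1, p.2))) := by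
  show FreeGroup.map (σ a) (mk L) = _
  exact map.mk

theorem ph_mul (a b : A) (v : FreeGroup Ω) : ph σ (a * b) v = ph σ a (ph σ b v) := by
  rw [_root_.map_mul]; rfl

theorem ph_one (v : FreeGroup Ω) : ph σ 1 v = v := by
  rw [_root_.map_one]; rfl

/-- the element with given components -/
abbrev el (σ : A →* Equiv.Perm Ω) (κ : FreeGroup Ω) (a : A) : Gr σ := ⟨κ, a⟩

theorem el_mul (κ l : FreeGroup Ω) (a b : A) : el σ κ a * el σ l b = el σ (κ * ph σ a l) (a * b) :=
  rfl

/-- left part of powers -/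
def L (σ : A →* Equiv.Perm Ω) (κ : FreeGroup Ω) (a : A) (n : ℕ) : FreeGroup Ω :=
  ((el σ κ a) ^ n).left

theorem pow_right (g : Gr σ) (n : ℕ) : (g ^ n).right = g.right ^ n :=
  map_pow (SemidirectProduct.rightHom) g n

theorem pow_eq (κ : FreeGroup Ω) (a : A) (n : ℕ) : (el σ κ a) ^ n = el σ (L σ κ a n) (a ^ n) := by
  apply SemidirectProduct.ext
  · rfl
  · exact pow_right _ _

theorem L_zero (κ : FreeGroup Ω) (a : A) : L σ κ a 0 = 1 := rfl

theorem L_one (κ : FreeGroup Ω) (a : A) : L σ κ a 1 = κ := by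
  unfold L; rw [pow_one]

theorem L_succ (κ : FreeGroup Ω) (a : A) (n : ℕ) : L σ κ a (n + 1) = κ * ph σ a (L σ κ a n) := by
  unfold L; rw [_root_.pow_succ']; rfl

theorem L_succ' (κ : FreeGroup Ω) (a : A) (n : ℕ) :
    L σ κ a (n + 1) = L σ κ a n * ph σ (a ^ n) κ := by
  have := pow_right (el σ κ a) n
  unfold L; rw [_root_.pow_succ, SemidirectProduct.mul_left, this]

theorem L_add (κ : FreeGroup Ω) (a : A) (m n : ℕ) :
    L σ κ a (m + n) = L σ κ a m * ph σ (a ^ m) (L σ κ a n) := by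
  have := pow_right (el σ κ a) m
  unfold L; rw [_root_.pow_add, SemidirectProduct.mul_left, this]

theorem norm_L {κ : FreeGroup Ω} {a : A} (h : (κ * ph σ a κ).norm = 2 * κ.norm) (hκ : κ ≠ 1)
    (n : ℕ) : (L σ κ a n).norm = n * κ.norm := by
  have key : ∀ n, (L σ κ a n).norm = n * κ.norm ∧ (L σ κ a (n + 1)).norm = (n + 1) * κ.norm := by
    intro n
    induction n with
    | zero => rw [L_zero, L_one]; simp
    | succ n ih =>
      refine ⟨ih.2, ?_⟩
      rw [L_succ, L_succ, _root_.map_mul, ← mul_assoc]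
      have h1 : (κ * ph σ a κ).norm = κ.norm + (ph σ a κ).norm := by rw [h, norm_ph]; ring
      have h2 : (ph σ a κ * ph σ a (ph σ a (L σ κ a n))).norm =
          (ph σ a κ).norm + (ph σ a (ph σ a (L σ κ a n))).norm := by
        rw [← _root_.map_mul, ← L_succ, norm_ph, norm_ph, norm_ph, norm_ph, ih.1, ih.2]; ring
      rw [reduced_overlap h1 h2 (by
        intro h'
        apply hκ
        exact (map_eq_one_iff _ (MulEquiv.injective _)).mp h'), norm_ph, norm_ph, norm_ph, ih.1]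
      ring
  exact (key n).1

/-- conjugates -/
def cj (s : FreeGroup Ω) (x : Gr σ) : Gr σ := SemidirectProduct.inl s * x * (SemidirectProduct.inl s)⁻¹

theorem cj_pow (s : FreeGroup Ω) (x : Gr σ) (n : ℕ) : (cj s x) ^ n = cj s (x ^ n) := by
  unfold cj
  rw [conj_pow]

theorem cj_el (s κ : FreeGroup Ω) (a : A) :
    cj s (el σ κ a) = el σ (s * κ * (ph σ a s)⁻¹) a := by
  unfold cj
  apply SemidirectProduct.ext
  · simp
  · simp

theorem cj_pow_left (s κ : FreeGroup Ω) (a : A) (n : ℕ) :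
    ((cj s (el σ κ a)) ^ n).left = s * L σ κ a n * (ph σ (a ^ n) s)⁻¹ := by
  rw [cj_pow, pow_eq, cj_el]

/-- cyclically reduced data -/
def Dat (σ : A →* Equiv.Perm Ω) (r κ : FreeGroup Ω) (a : A) : Prop :=
  (r * κ * (ph σ a r)⁻¹).norm = 2 * r.norm + κ.norm ∧ (κ * ph σ a κ).norm = 2 * κ.norm

theorem el_inv (κ : FreeGroup Ω) (a : A) : (el σ κ a)⁻¹ = el σ (ph σ a⁻¹ κ⁻¹) a⁻¹ := rfl

theorem cj_inv (s : FreeGroup Ω) (x : Gr σ) : (cj s x)⁻¹ = cj s x⁻¹ := by
  unfold cj; group

theorem Dat.inv {r κ : FreeGroup Ω} {a : A} (h : Dat σ r κ a) : Dat σ r (ph σ a⁻¹ κ⁻¹) a⁻¹ := by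
  constructor
  · have h1 := norm_inv_left (cj r (el σ κ a))
    rw [cj_inv, el_inv, cj_el, cj_el] at h1
    rw [norm_ph, norm_inv_eq, ← h.1]
    exact h1
  · rw [norm_ph, norm_inv_eq, ← h.2]
    have : ph σ a⁻¹ κ⁻¹ * ph σ a⁻¹ (ph σ a⁻¹ κ⁻¹) =
        (ph σ a⁻¹ (ph σ a⁻¹ (κ * ph σ a κ)))⁻¹ := by
      have e : ph σ a⁻¹ (ph σ a κ) = κ := by rw [← ph_mul, inv_mul_cancel, ph_one]
      have e1 : ph σ a⁻¹ κ⁻¹ = (ph σ a⁻¹ κ)⁻¹ := _root_.map_inv (ph σ a⁻¹) κ
      have e2 : ph σ a⁻¹ (ph σ a⁻¹ κ)⁻¹ = (ph σ a⁻¹ (ph σ a⁻¹ κ))⁻¹ :=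
        _root_.map_inv (ph σ a⁻¹) _
      rw [_root_.map_mul, e, _root_.map_mul, mul_inv_rev, e1, e2]
    rw [this, norm_inv_eq, norm_ph, norm_ph]

theorem norm_pieces {r κ : FreeGroup Ω} {a : A} (h : Dat σ r κ a) :
    (r * κ).norm = r.norm + κ.norm ∧ (κ * (ph σ a r)⁻¹).norm = κ.norm + r.norm := by
  have h1 := h.1
  have h2 := FreeGroup.norm_mul_le (r * κ) ((ph σ a r)⁻¹)
  have h3 := FreeGroup.norm_mul_le r κ
  have h4 := FreeGroup.norm_mul_le r (κ * (ph σ a r)⁻¹)
  have h5 := FreeGroup.norm_mul_le κ ((ph σ a r)⁻¹)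
  rw [← mul_assoc] at h4
  rw [norm_inv_eq, norm_ph] at h2 h5
  constructor <;> omega

theorem ph_ne_one {a : A} {v : FreeGroup Ω} (h : v ≠ 1) : ph σ a v ≠ 1 :=
  fun h' => h ((map_eq_one_iff _ (MulEquiv.injective _)).mp h')

theorem norm_conj_pow {r κ : FreeGroup Ω} {a : A} (h : Dat σ r κ a) (hκ : κ ≠ 1) {n : ℕ}
    (hn : 1 ≤ n) : (r * L σ κ a n).norm = r.norm + n * κ.norm ∧
      (r * L σ κ a n * (ph σ (a ^ n) r)⁻¹).norm = 2 * r.norm + n * κ.norm := by
  obtain ⟨m, rfl⟩ := Nat.exists_eq_add_of_le' hn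
  obtain ⟨p1, p2⟩ := norm_pieces h
  have hL := norm_L h.2 hκ
  have h1 : (r * L σ κ a (m + 1)).norm = r.norm + (L σ κ a (m + 1)).norm := by
    rw [L_succ, ← mul_assoc, reduced_overlap p1 ?_ hκ, norm_ph]
    · rw [← L_succ, hL, hL]; ring
    · rw [← L_succ, norm_ph, hL, hL]; ring
  have h2 : (L σ κ a (m + 1) * (ph σ (a ^ (m + 1)) r)⁻¹).norm =
      (L σ κ a (m + 1)).norm + ((ph σ (a ^ (m + 1)) r)⁻¹).norm := by
    have e : ph σ (a ^ m) κ * (ph σ (a ^ (m + 1)) r)⁻¹ = ph σ (a ^ m) (κ * (ph σ a r)⁻¹) := by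
      rw [_root_.map_mul, _root_.pow_succ, ph_mul, _root_.map_inv]
    rw [L_succ', reduced_overlap ?_ ?_ (ph_ne_one hκ)]
    · rw [← L_succ', norm_inv_eq, norm_ph, norm_ph, hL, hL]; ring
    · rw [← L_succ', norm_ph, hL, hL]; ring
    · rw [e, norm_ph, p2, norm_ph, norm_inv_eq, norm_ph]
  have hne : L σ κ a (m + 1) ≠ 1 := by
    intro h'
    have := hL (m + 1)
    rw [h', FreeGroup.norm_one] at this
    have h0 : κ.norm ≠ 0 := fun h0 => hκ (norm_eq_zero.mp h0)
    have : 0 < (m + 1) * κ.norm := Nat.mul_pos (Nat.succ_pos m) (Nat.pos_of_ne_zero h0)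
    omega
  refine ⟨by rw [h1, hL], ?_⟩
  rw [reduced_overlap h1 h2 hne, hL, norm_inv_eq, norm_ph]
  ring

/-- **Cyclic reduction.** -/
theorem exists_dat (a : A) : ∀ (m : ℕ) (k : FreeGroup Ω), k.norm ≤ m → ∃ r κ : FreeGroup Ω,
    k = r * κ * (ph σ a r)⁻¹ ∧ Dat σ r κ a := by
  intro m
  induction m with
  | zero =>
    intro k hk
    have : k = 1 := norm_eq_zero.mp (Nat.le_zero.mp hk)
    subst this
    exact ⟨1, 1, by simp, by simp [Dat]⟩
  | succ m ih =>
    intro k hk
    by_cases h : (k * ph σ a k).norm = 2 * k.norm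
    · exact ⟨1, k, by simp, ⟨by simp, h⟩⟩
    · have h1 := two_cp k⁻¹ (ph σ a k)
      rw [inv_inv, norm_inv_eq, norm_ph] at h1
      have hcp : 1 ≤ cp k⁻¹ (ph σ a k) := by
        by_contra hcon
        apply h
        omega
      obtain ⟨-, -, h2⟩ := le_cp_iff.mp hcp
      rw [toWord_inv, toWord_ph] at h2
      have hred : FreeGroup.IsReduced k.toWord := isReduced_toWord
      have hkw : mk k.toWord = k := mk_toWord
      have hnorm : k.norm = k.toWord.length := rfl
      rcases hw : k.toWord with _ | ⟨c, rest⟩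
      · exfalso
        apply h
        have : k = 1 := by rw [← hkw, hw]; rfl
        subst this
        simp
      · rw [hw] at h2 hred hkw hnorm
        rcases List.eq_nil_or_concat rest with rfl | ⟨w, e, rfl⟩
        · exfalso
          simp [invRev] at h2
        · have he : e = (σ a c.1, !c.2) := by
            have : invRev (c :: (w ++ [e])) = (e.1, !e.2) :: (invRev (c :: w)) := by
              simp [invRev]
            rw [List.concat_eq_append, this] at h2
            simp at h2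
            apply Prod.ext
            · exact h2.1
            · rw [← h2.2]
          rw [List.concat_eq_append] at hkw hred hnorm
          have hcons : c :: (w ++ [e]) = [c] ++ w ++ [e] := by simp
          rw [hcons] at hkw hred hnorm
          have hwred : FreeGroup.IsReduced w := IsReduced.right (IsReduced.left hred)
          have hk' : (mk w : FreeGroup Ω).norm = w.length := by
            unfold FreeGroup.norm; rw [toWord_of_reduced hwred]
          simp only [List.length_append, List.length_singleton] at hnorm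
          obtain ⟨r', κ, e1, e2⟩ := ih (mk w) (by omega)
          have hme : (mk [e] : FreeGroup Ω) = (ph σ a (mk [c]))⁻¹ := by
            rw [ph_mk, inv_mk, he]
            simp [invRev]
          have hk2 : k = mk [c] * mk w * (ph σ a (mk [c]))⁻¹ := by
            rw [← hme, mul_mk, mul_mk, hkw]
          have hk3 : k = (mk [c] * r') * κ * (ph σ a (mk [c] * r'))⁻¹ := by
            rw [hk2, e1, _root_.map_mul, mul_inv_rev]; group
          refine ⟨mk [c] * r', κ, hk3, ?_, e2.2⟩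
          rw [← hk3]
          have hc1 : (mk [c] : FreeGroup Ω).norm ≤ 1 := norm_mk_le
          have n1 := FreeGroup.norm_mul_le (mk [c]) r'
          have n2 := FreeGroup.norm_mul_le (mk [c] * r' * κ) (ph σ a (mk [c] * r'))⁻¹
          have n3 := FreeGroup.norm_mul_le (mk [c] * r') κ
          rw [norm_inv_eq, norm_ph, ← hk3] at n2
          have n4 := e2.1
          rw [← e1] at n4
          omega

end main

end Pool.Agent.R646.P
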