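import Mathlib

set_option autoImplicit false
set_option linter.unusedSectionVars false

/-!
# A finitely presented group with elements of order `2 ^ k` for every `k`
-/

namespace Pool.Agent.R646.P

open scoped commutatorElement

section rels

/-- the twelve relators evaluated at five elements -/
def relSet {Q : Type*} [Group Q] (x w y s r : Q) : Set Q :=
  {⁅r, s⁆, s * x ^ 2 * s⁻¹ * x⁻¹, ⁅r, x⁆, ⁅r * s, w⁆, ⁅s, ⁅x, w⁆⁆, ⁅s, y⁆, ⁅x, y⁆, ⁅x, ⁅x, w⁆⁆,
    ⁅r, ⁅w, y⁆⁆, ⁅⁅x, w⁆, ⁅w, y⁆⁆, ⁅⁅w, y⁆, y⁆, ⁅x, ⁅w, y⁆⁆}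

theorem relSet_map {Q Q' : Type*} [Group Q] [Group Q'] (f : Q →* Q') (x w y s r : Q) :
    f '' relSet x w y s r = relSet (f x) (f w) (f y) (f s) (f r) := by
  unfold relSet
  simp only [Set.image_insert_eq, Set.image_singleton, map_commutatorElement, map_mul, map_inv,
    map_pow]

theorem relSet_finite {Q : Type*} [Group Q] (x w y s r : Q) : (relSet x w y s r).Finite := by
  unfold relSet
  exact Set.toFinite _

variable {Q : Type*} [Group Q] {x w y s r : Q}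

/-- the elements `z_k` -/
def zel (x w y s : Q) (k : ℕ) : Q := ⁅s ^ k * x * (s ^ k)⁻¹, ⁅w, y⁆⁆

theorem zel_map {Q' : Type*} [Group Q'] (f : Q →* Q') (x w y s : Q) (k : ℕ) :
    f (zel x w y s k) = zel (f x) (f w) (f y) (f s) k := by
  unfold zel
  simp only [map_commutatorElement, map_mul, map_inv, map_pow]

theorem comm_key {X y w : Q} (h1 : Commute X ⁅X, w⁆) (h2 : Commute X y)
    (h3 : Commute ⁅X, w⁆ ⁅w, y⁆) (h4 : Commute ⁅w, y⁆ y) : Commute X ⁅X, ⁅w, y⁆⁆ := by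
  set U := ⁅X, w⁆ with hU
  set v := ⁅w, y⁆ with hv
  have e1 : X * w * X⁻¹ = U * w := by rw [hU, commutatorElement_def]; group
  have e2 : w * y * w⁻¹ = v * y := by rw [hv, commutatorElement_def]; group
  have e3 : X * y * X⁻¹ = y := by rw [h2.eq]; group
  have e4 : X * v * X⁻¹ = v * ⁅U, y⁆ := by
    calc X * v * X⁻¹ = (X * w * X⁻¹) * (X * y * X⁻¹) * (X * w * X⁻¹)⁻¹ * (X * y * X⁻¹)⁻¹ := by
          rw [hv, commutatorElement_def]; group
      _ = U * (w * y * w⁻¹) * U⁻¹ * y⁻¹ := by rw [e1, e3]; group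
      _ = U * v * (y * U⁻¹ * y⁻¹) := by rw [e2]; group
      _ = v * U * (y * U⁻¹ * y⁻¹) := by rw [h3.eq]
      _ = v * ⁅U, y⁆ := by rw [commutatorElement_def]; group
  have e5 : ⁅X, v⁆ = v * ⁅U, y⁆ * v⁻¹ := by
    rw [commutatorElement_def X v, e4]
  have e6 : Commute v ⁅U, y⁆ := by
    rw [commutatorElement_def]
    exact ((h3.symm.mul_right h4).mul_right h3.symm.inv_right).mul_right h4.inv_right
  rw [e5, e6.eq, mul_inv_cancel_right]
  rw [commutatorElement_def]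
  exact ((h1.mul_right h2).mul_right h1.inv_right).mul_right h2.inv_right

theorem pow_comm_key {X v : Q} (h : Commute X ⁅X, v⁆) (m : ℕ) : ⁅X ^ m, v⁆ = ⁅X, v⁆ ^ m := by
  have e : X * v = ⁅X, v⁆ * v * X := by rw [commutatorElement_def]; group
  have : ∀ m : ℕ, X ^ m * v = ⁅X, v⁆ ^ m * v * X ^ m := by
    intro m
    induction m with
    | zero => simp
    | succ n ih =>
      calc X ^ (n + 1) * v = X * (X ^ n * v) := by rw [pow_succ', mul_assoc]
        _ = X * ⁅X, v⁆ ^ n * v * X ^ n := by rw [ih]; simp only [mul_assoc]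
        _ = ⁅X, v⁆ ^ n * (X * v) * X ^ n := by rw [(h.pow_right n).eq]; simp only [mul_assoc]
        _ = ⁅X, v⁆ ^ n * (⁅X, v⁆ * v * X) * X ^ n := by rw [← e]
        _ = ⁅X, v⁆ ^ (n + 1) * v * X ^ (n + 1) := by
          rw [pow_succ ⁅X, v⁆, pow_succ' X]; simp only [mul_assoc]
  rw [commutatorElement_def, this m]
  group

theorem zel_pow (hR : relSet x w y s r ⊆ {1}) (k : ℕ) : (zel x w y s k) ^ (2 ^ k) = 1 := by
  have hR' : ∀ z ∈ relSet x w y s r, z = 1 := fun z hz => hR hz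
  unfold relSet at hR'
  simp only [Set.mem_insert_iff, Set.mem_singleton_iff, forall_eq_or_imp, forall_eq,
    commutatorElement_eq_one_iff_commute] at hR'
  obtain ⟨rs, sx, rx, rsw, su, sy, xy, xu, rv, uv, vy, xv⟩ := hR'
  set X := s ^ k * x * (s ^ k)⁻¹ with hX
  -- X ^ (2 ^ k) = x
  have p1 : SemiconjBy s (x ^ 2) x := by
    show s * x ^ 2 = x * s
    exact mul_inv_eq_iff_eq_mul.mp (mul_inv_eq_one.mp sx)
  have p2 : ∀ k : ℕ, SemiconjBy (s ^ k) (x ^ (2 ^ k)) x := by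
    intro k
    induction k with
    | zero => simp
    | succ n ih =>
      have h1 : SemiconjBy s (x ^ (2 ^ (n + 1))) (x ^ (2 ^ n)) := by
        have := p1.pow_right (2 ^ n)
        rwa [← pow_mul, mul_comm 2, ← pow_succ] at this
      rw [pow_succ]
      exact ih.mul_left h1
  have p3 : X ^ (2 ^ k) = x := by
    rw [hX, conj_pow]
    have := p2 k
    exact mul_inv_eq_of_eq_mul this.eq
  -- conjugation by c
  set c := r ^ k * s ^ k with hc
  have c1 : c = (r * s) ^ k := (rs.mul_pow k).symm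
  have f1 : MulAut.conj c x = X := by
    rw [MulAut.conj_apply, hc, (rs.pow_pow k k).eq, hX]
    have : r ^ k * x = x * r ^ k := (rx.pow_left k).eq
    calc s ^ k * r ^ k * x * (s ^ k * r ^ k)⁻¹ = s ^ k * (r ^ k * x) * (r ^ k)⁻¹ * (s ^ k)⁻¹ := by
          group
      _ = _ := by rw [this]; group
  have f2 : MulAut.conj c w = w := by
    rw [MulAut.conj_apply, c1, (rsw.pow_left k).eq]; group
  have f3 : MulAut.conj c ⁅x, w⁆ = ⁅X, w⁆ := by rw [map_commutatorElement, f1, f2]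
  have f4 : MulAut.conj c ⁅x, w⁆ = r ^ k * ⁅x, w⁆ * (r ^ k)⁻¹ := by
    rw [MulAut.conj_apply, hc]
    calc r ^ k * s ^ k * ⁅x, w⁆ * (r ^ k * s ^ k)⁻¹
        = r ^ k * (s ^ k * ⁅x, w⁆) * (s ^ k)⁻¹ * (r ^ k)⁻¹ := by group
      _ = _ := by rw [(su.pow_left k).eq]; group
  have g1 : Commute X ⁅X, w⁆ := by
    rw [← f3, ← f1]; exact xu.map (MulAut.conj c)
  have g2 : Commute X y := by
    have := (sy.pow_left k)
    exact (this.mul_left xy).mul_left this.inv_left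
  have g3 : Commute ⁅X, w⁆ ⁅w, y⁆ := by
    rw [← f3, f4]
    have := (rv.pow_left k)
    exact (this.mul_left uv).mul_left this.inv_left
  have key := comm_key g1 g2 g3 vy
  have := pow_comm_key key (2 ^ k)
  unfold zel
  rw [← hX, ← this, p3]
  exact commutatorElement_eq_one_iff_commute.mpr xv

end rels

section model

/-- the model space -/
abbrev MS : Type := AddCircle (1 : ℚ) × ℚ × ℚ

/-- the model of `x` -/
def mx : Equiv.Perm MS where
  toFun v := (v.1 + (v.2.1 : AddCircle (1 : ℚ)), v.2.1, v.2.2)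
  invFun v := (v.1 - (v.2.1 : AddCircle (1 : ℚ)), v.2.1, v.2.2)
  left_inv v := by simp
  right_inv v := by simp

/-- the model of `w` -/
def mw : Equiv.Perm MS where
  toFun v := (v.1, v.2.1 + v.2.2, v.2.2)
  invFun v := (v.1, v.2.1 - v.2.2, v.2.2)
  left_inv v := by simp
  right_inv v := by simp

/-- the model of `y` -/
def my : Equiv.Perm MS where
  toFun v := (v.1, v.2.1, v.2.2 + 1)
  invFun v := (v.1, v.2.1, v.2.2 - 1)
  left_inv v := by simp
  right_inv v := by simp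

/-- the model of `s` -/
def ms : Equiv.Perm MS where
  toFun v := (v.1, 2 * v.2.1, v.2.2)
  invFun v := (v.1, v.2.1 / 2, v.2.2)
  left_inv v := by simp
  right_inv v := by simp; ring_nf

/-- the model of `r` -/
def mr : Equiv.Perm MS where
  toFun v := (v.1, v.2.1, 2 * v.2.2)
  invFun v := (v.1, v.2.1, v.2.2 / 2)
  left_inv v := by simp
  right_inv v := by simp; ring_nf

theorem mx_apply (v : MS) : mx v = (v.1 + (v.2.1 : AddCircle (1 : ℚ)), v.2.1, v.2.2) := rfl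
theorem mw_apply (v : MS) : mw v = (v.1, v.2.1 + v.2.2, v.2.2) := rfl
theorem my_apply (v : MS) : my v = (v.1, v.2.1, v.2.2 + 1) := rfl
theorem ms_apply (v : MS) : ms v = (v.1, 2 * v.2.1, v.2.2) := rfl
theorem mr_apply (v : MS) : mr v = (v.1, v.2.1, 2 * v.2.2) := rfl
theorem mxi_apply (v : MS) : mx⁻¹ v = (v.1 - (v.2.1 : AddCircle (1 : ℚ)), v.2.1, v.2.2) := rfl
theorem mwi_apply (v : MS) : mw⁻¹ v = (v.1, v.2.1 - v.2.2, v.2.2) := rfl
theorem myi_apply (v : MS) : my⁻¹ v = (v.1, v.2.1, v.2.2 - 1) := rfl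
theorem msi_apply (v : MS) : ms⁻¹ v = (v.1, v.2.1 / 2, v.2.2) := rfl
theorem mri_apply (v : MS) : mr⁻¹ v = (v.1, v.2.1, v.2.2 / 2) := rfl

theorem one_circle : ((1 : ℚ) : AddCircle (1 : ℚ)) = 0 := AddCircle.coe_period 1

theorem mu_apply (v : MS) : ⁅mx, mw⁆ v = (v.1 + (v.2.2 : AddCircle (1 : ℚ)), v.2.1, v.2.2) := by
  rw [commutatorElement_def]
  simp only [Equiv.Perm.mul_apply, mx_apply, mw_apply, mxi_apply, mwi_apply]
  ext
  · simp
    abel
  · simp
  · simp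

theorem mv_apply (v : MS) : ⁅mw, my⁆ v = (v.1, v.2.1 + 1, v.2.2) := by
  rw [commutatorElement_def]
  simp only [Equiv.Perm.mul_apply, my_apply, mw_apply, myi_apply, mwi_apply]
  ext
  · simp
  · simp
    ring
  · simp

theorem mrel : relSet mx mw my ms mr ⊆ {1} := by
  have key : ∀ z ∈ relSet mx mw my ms mr, z = 1 := by
    unfold relSet
    simp only [Set.mem_insert_iff, Set.mem_singleton_iff, forall_eq_or_imp, forall_eq,
      commutatorElement_eq_one_iff_commute]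
    refine ⟨?_, ?_, ?_, ?_, ?_, ?_, ?_, ?_, ?_, ?_, ?_, ?_⟩
    · ext v <;> simp [Equiv.Perm.mul_apply, mr_apply, ms_apply]
    · rw [mul_inv_eq_one, mul_inv_eq_iff_eq_mul, pow_two]
      ext v <;> simp [Equiv.Perm.mul_apply, mx_apply, ms_apply, two_mul, add_assoc]
    · ext v <;> simp [Equiv.Perm.mul_apply, mr_apply, mx_apply]
    · ext v <;> simp [Equiv.Perm.mul_apply, mr_apply, ms_apply, mw_apply, mul_add]
    · ext v <;> simp [Equiv.Perm.mul_apply, mu_apply, ms_apply]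
    · ext v <;> simp [Equiv.Perm.mul_apply, my_apply, ms_apply]
    · ext v <;> simp [Equiv.Perm.mul_apply, my_apply, mx_apply]
    · ext v <;> simp [Equiv.Perm.mul_apply, mu_apply, mx_apply, add_right_comm]
    · ext v <;> simp [Equiv.Perm.mul_apply, mv_apply, mr_apply]
    · ext v <;> simp [Equiv.Perm.mul_apply, mv_apply, mu_apply]
    · ext v <;> simp [Equiv.Perm.mul_apply, mv_apply, my_apply]
    · ext v <;> simp [Equiv.Perm.mul_apply, mv_apply, mx_apply]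
  exact fun z hz => key z hz

theorem ms_pow (k : ℕ) (v : MS) : (ms ^ k) v = (v.1, 2 ^ k * v.2.1, v.2.2) := by
  induction k generalizing v with
  | zero => simp
  | succ n ih =>
    rw [pow_succ, Equiv.Perm.mul_apply, ms_apply, ih, pow_succ]
    simp [mul_assoc]

theorem ms_pow_inv (k : ℕ) (v : MS) : (ms ^ k)⁻¹ v = (v.1, v.2.1 / 2 ^ k, v.2.2) := by
  rw [Equiv.Perm.inv_eq_iff_eq, ms_pow]
  ext
  · rfl
  · show v.2.1 = 2 ^ k * (v.2.1 / 2 ^ k)
    field_simp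
  · rfl

theorem mvi_apply (v : MS) : ⁅mw, my⁆⁻¹ v = (v.1, v.2.1 - 1, v.2.2) := by
  rw [Equiv.Perm.inv_eq_iff_eq, mv_apply]
  ext
  · rfl
  · show v.2.1 = v.2.1 - 1 + 1
    ring
  · rfl

theorem mz_apply (k : ℕ) (v : MS) :
    zel mx mw my ms k v = (v.1 + (((1 : ℚ) / 2 ^ k : ℚ) : AddCircle (1 : ℚ)), v.2.1, v.2.2) := by
  unfold zel
  rw [commutatorElement_def]
  have e : (ms ^ k * mx * (ms ^ k)⁻¹)⁻¹ = ms ^ k * mx⁻¹ * (ms ^ k)⁻¹ := by group
  rw [e]
  simp only [Equiv.Perm.mul_apply, mx_apply, mxi_apply, ms_pow, ms_pow_inv, mv_apply, mvi_apply]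
  have h2 : (2 : ℚ) ^ k ≠ 0 := by positivity
  refine Prod.ext ?_ (Prod.ext ?_ rfl)
  · show v.1 - (((v.2.1 - 1) / 2 ^ k : ℚ) : AddCircle (1 : ℚ)) +
      (((2 ^ k * ((v.2.1 - 1) / 2 ^ k) + 1) / 2 ^ k : ℚ) : AddCircle (1 : ℚ)) = _
    have e1 : ((2 ^ k * ((v.2.1 - 1) / 2 ^ k) + 1) / 2 ^ k : ℚ) = (v.2.1 - 1) / 2 ^ k + 1 / 2 ^ k := by
      field_simp
    rw [e1, AddCircle.coe_add, ← add_assoc, sub_add_cancel]
  · show (2 ^ k * ((2 ^ k * ((v.2.1 - 1) / 2 ^ k) + 1) / 2 ^ k) : ℚ) = v.2.1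
    field_simp
    ring

theorem mz_pow_apply (k m : ℕ) (v : MS) :
    ((zel mx mw my ms k) ^ m) v =
      (v.1 + (((m : ℚ) / 2 ^ k : ℚ) : AddCircle (1 : ℚ)), v.2.1, v.2.2) := by
  induction m generalizing v with
  | zero => simp
  | succ n ih =>
    rw [pow_succ', Equiv.Perm.mul_apply, ih, mz_apply]
    refine Prod.ext ?_ rfl
    show v.1 + (((n : ℚ) / 2 ^ k : ℚ) : AddCircle (1 : ℚ)) +
      (((1 : ℚ) / 2 ^ k : ℚ) : AddCircle (1 : ℚ)) = _
    rw [add_assoc, ← AddCircle.coe_add, ← add_div]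
    push_cast
    rfl

theorem mz_pow_ne {k m : ℕ} (h0 : 0 < m) (h1 : m < 2 ^ k) : (zel mx mw my ms k) ^ m ≠ 1 := by
  intro h
  have h2 := mz_pow_apply k m (0, 0, 0)
  rw [h, Equiv.Perm.one_apply] at h2
  have h3 : (((m : ℚ) / 2 ^ k : ℚ) : AddCircle (1 : ℚ)) = 0 := by
    have := congrArg Prod.fst h2
    simpa using this.symm
  rw [AddCircle.coe_eq_zero_iff] at h3
  obtain ⟨n, hn⟩ := h3
  have h4 : (2 : ℚ) ^ k > 0 := by positivity
  have h5 : (n : ℚ) = (m : ℚ) / 2 ^ k := by simpa using hn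
  rw [eq_div_iff h4.ne'] at h5
  have h6 : n * 2 ^ k = (m : ℤ) := by exact_mod_cast h5
  have h7 : (0 : ℤ) < m := by exact_mod_cast h0
  have h8 : (m : ℤ) < 2 ^ k := by exact_mod_cast h1
  have h9 : (0 : ℤ) < 2 ^ k := by positivity
  rcases lt_or_ge 0 n with hn | hn
  · nlinarith
  · nlinarith

end model

end Pool.Agent.R646.P
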