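import Pool.Agent.R646.P.Alt
import Pool.Agent.R646.P.Rel

set_option autoImplicit false
set_option linter.unusedSectionVars false

/-!
# A finite presentation of `FreeGroup Q ⋊ (F × F)`
-/

namespace Pool.Agent.R646.P

open scoped commutatorElement

section pres

variable {n : ℕ} (R : Set (FreeGroup (Fin n)))

/-- the action of `F × F` on the quotient -/
def act : FreeGroup (Fin n) × FreeGroup (Fin n) →* Equiv.Perm (PresentedGroup R) where
  toFun p := (Equiv.mulLeft (PresentedGroup.mk R p.1)).trans
    (Equiv.mulRight (PresentedGroup.mk R p.2)⁻¹)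
  map_one' := by ext q; simp
  map_mul' p p' := by ext q; simp [mul_assoc]

theorem act_apply (p : FreeGroup (Fin n) × FreeGroup (Fin n)) (q : PresentedGroup R) :
    act R p q = PresentedGroup.mk R p.1 * q * (PresentedGroup.mk R p.2)⁻¹ := rfl

/-- generators: `none` is the stable letter, the others are two copies of the basis -/
abbrev Gen (n : ℕ) : Type := Option (Bool × Fin n)

/-- the generators as elements of a free group -/
def ga (i : Fin n) : FreeGroup (Gen n) := FreeGroup.of (some (false, i))
/-- the generators as elements of a free group -/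
def gb (i : Fin n) : FreeGroup (Gen n) := FreeGroup.of (some (true, i))
/-- the stable letter -/
def gt (n : ℕ) : FreeGroup (Gen n) := FreeGroup.of none

/-- the relators -/
def RS : Set (FreeGroup (Gen n)) :=
  Set.range (fun p : Fin n × Fin n => ⁅ga p.1, gb p.2⁆) ∪
  Set.range (fun i : Fin n => ⁅gt n, ga i * gb i⁆) ∪
  (fun ρ => ⁅gt n, FreeGroup.lift (ga (n := n)) ρ⁆) '' R

theorem RS_finite (hR : R.Finite) : (RS R).Finite :=
  ((Set.finite_range _).union (Set.finite_range _)).union (hR.image _)

/-- the presented group -/
abbrev PG : Type := PresentedGroup (RS R)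

/-- the images of the generators -/
def pa (i : Fin n) : PG R := PresentedGroup.of (some (false, i))
/-- the images of the generators -/
def pb (i : Fin n) : PG R := PresentedGroup.of (some (true, i))
/-- the image of the stable letter -/
def pt : PG R := PresentedGroup.of none

theorem pab (i j : Fin n) : Commute (pa R i) (pb R j) := by
  have : PresentedGroup.mk (RS R) ⁅ga i, gb j⁆ = 1 :=
    PresentedGroup.one_of_mem (Or.inl (Or.inl ⟨(i, j), rfl⟩))
  rw [map_commutatorElement, commutatorElement_eq_one_iff_commute] at this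
  exact this

theorem ptab (i : Fin n) : Commute (pt R) (pa R i * pb R i) := by
  have : PresentedGroup.mk (RS R) ⁅gt n, ga i * gb i⁆ = 1 :=
    PresentedGroup.one_of_mem (Or.inl (Or.inr ⟨i, rfl⟩))
  rw [map_commutatorElement, commutatorElement_eq_one_iff_commute, map_mul] at this
  exact this

/-- the hom on the first free group -/
def la : FreeGroup (Fin n) →* PG R := FreeGroup.lift (pa R)
/-- the hom on the second free group -/
def lb : FreeGroup (Fin n) →* PG R := FreeGroup.lift (pb R)

theorem ptr {ρ : FreeGroup (Fin n)} (hρ : ρ ∈ R) : Commute (pt R) (la R ρ) := by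
  have : PresentedGroup.mk (RS R) ⁅gt n, FreeGroup.lift (ga (n := n)) ρ⁆ = 1 :=
    PresentedGroup.one_of_mem (Or.inr ⟨ρ, hρ, rfl⟩)
  rw [map_commutatorElement, commutatorElement_eq_one_iff_commute] at this
  have e : (PresentedGroup.mk (RS R)).comp (FreeGroup.lift (ga (n := n))) = la R := by
    ext i
    simp [la, ga, pa, PresentedGroup.of]
  have e2 := DFunLike.congr_fun e ρ
  rw [MonoidHom.comp_apply] at e2
  rw [← e2]
  exact this

theorem lab (u v : FreeGroup (Fin n)) : Commute (la R u) (lb R v) := by
  have h1 : ∀ i, Commute (la R u) (pb R i) := by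
    intro i
    have : (la R).range ≤ Subgroup.centralizer {pb R i} := by
      apply FreeGroup.range_lift_le
      rintro _ ⟨j, rfl⟩
      rw [SetLike.mem_coe, Subgroup.mem_centralizer_singleton_iff]
      exact (pab R j i)
    have h := this ⟨u, rfl⟩
    rw [Subgroup.mem_centralizer_singleton_iff] at h
    exact h
  have : (lb R).range ≤ Subgroup.centralizer {la R u} := by
    apply FreeGroup.range_lift_le
    rintro _ ⟨j, rfl⟩
    rw [SetLike.mem_coe, Subgroup.mem_centralizer_singleton_iff]
    exact (h1 j).symm
  have h := this ⟨v, rfl⟩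
  rw [Subgroup.mem_centralizer_singleton_iff] at h
  exact Commute.symm h

/-- the diagonal commutes with `t` -/
theorem diag_comm (u : FreeGroup (Fin n)) : Commute (la R u * lb R u) (pt R) := by
  let D : FreeGroup (Fin n) →* PG R :=
    ((la R).noncommCoprod (lb R) (lab R)).comp ((MonoidHom.id _).prod (MonoidHom.id _))
  have hD : ∀ u, D u = la R u * lb R u := fun u => rfl
  have h1 : ∀ u, D u ∈ Subgroup.centralizer {pt R} := by
    intro u
    induction u using FreeGroup.induction_on with
    | C1 => rw [map_one]; exact one_mem _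
    | of i =>
      rw [hD, Subgroup.mem_centralizer_singleton_iff]
      have := (ptab R i).symm.eq
      simpa [la, lb] using this
    | inv_of i h => rw [map_inv]; exact inv_mem h
    | mul a b h1 h2 => rw [map_mul]; exact mul_mem h1 h2
  have h := h1 u
  rw [Subgroup.mem_centralizer_singleton_iff, hD] at h
  exact h

theorem ker_comm {m : FreeGroup (Fin n)} (hm : PresentedGroup.mk R m = 1) :
    Commute (la R m) (pt R) := by
  let K : Subgroup (FreeGroup (Fin n)) := (Subgroup.centralizer {pt R}).comap (la R)
  have hK : ∀ m, m ∈ K ↔ Commute (la R m) (pt R) := by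
    intro m
    rw [Subgroup.mem_comap, Subgroup.mem_centralizer_singleton_iff]
    rfl
  have h1 : Subgroup.normalClosure R ≤ K.normalCore := by
    apply Subgroup.normalClosure_le_normal
    intro ρ hρ g
    rw [hK]
    have e : la R (g * ρ * g⁻¹) =
        (la R g * lb R g) * la R ρ * (la R g * lb R g)⁻¹ := by
      rw [map_mul, map_mul, map_inv]
      have := (lab R ρ g).eq
      calc la R g * la R ρ * (la R g)⁻¹ = la R g * (la R ρ * lb R g) * (lb R g)⁻¹ * (la R g)⁻¹ := by
            group
        _ = _ := by rw [this]; group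
    rw [e]
    have c1 := diag_comm R g
    exact (c1.mul_left (ptr R hρ).symm).mul_left c1.inv_left
  rw [← hK]
  apply K.normalCore_le
  apply h1
  exact (QuotientGroup.eq_one_iff m).mp hm

/-- the conjugates of `t` -/
def TT (u : FreeGroup (Fin n)) : PG R := la R u * pt R * (la R u)⁻¹

theorem TT_eq {u u' : FreeGroup (Fin n)} (h : PresentedGroup.mk R u = PresentedGroup.mk R u') :
    TT R u = TT R u' := by
  have h1 : PresentedGroup.mk R (u⁻¹ * u') = 1 := by rw [map_mul, map_inv, h, inv_mul_cancel]
  have h2 := ker_comm R h1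
  rw [map_mul, map_inv] at h2
  have h3 : (la R u)⁻¹ * la R u' * pt R = pt R * ((la R u)⁻¹ * la R u') := h2
  unfold TT
  calc la R u * pt R * (la R u)⁻¹
      = la R u * (pt R * ((la R u)⁻¹ * la R u')) * (la R u')⁻¹ := by group
    _ = _ := by rw [← h3]; group

/-- a preimage -/
noncomputable def pre (q : PresentedGroup R) : FreeGroup (Fin n) :=
  Function.surjInv (PresentedGroup.mk_surjective R) q

theorem mk_pre (q : PresentedGroup R) : PresentedGroup.mk R (pre R q) = q :=
  Function.surjInv_eq _ q

/-- the hom on the free group over the quotient -/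
noncomputable def f1 : FreeGroup (PresentedGroup R) →* PG R :=
  FreeGroup.lift (fun q => TT R (pre R q))

theorem f1_of (q : PresentedGroup R) : f1 R (FreeGroup.of q) = TT R (pre R q) := by
  simp [f1]

/-- the hom on the acting group -/
def f2 : FreeGroup (Fin n) × FreeGroup (Fin n) →* PG R :=
  (la R).noncommCoprod (lb R) (lab R)

theorem f2_apply (p : FreeGroup (Fin n) × FreeGroup (Fin n)) :
    f2 R p = la R p.1 * lb R p.2 := rfl

theorem conj_lb (v q : FreeGroup (Fin n)) :
    lb R v * TT R q * (lb R v)⁻¹ = TT R (q * v⁻¹) := by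
  unfold TT
  have h1 := (lab R q v).eq
  have h2 : la R v * lb R v * pt R = pt R * (la R v * lb R v) := diag_comm R v
  have h3 : lb R v * pt R * (lb R v)⁻¹ = (la R v)⁻¹ * pt R * la R v := by
    have : lb R v * pt R = (la R v)⁻¹ * (pt R * (la R v * lb R v)) := by rw [← h2]; group
    rw [this]; group
  calc lb R v * (la R q * pt R * (la R q)⁻¹) * (lb R v)⁻¹
      = (lb R v * la R q) * pt R * (lb R v * la R q)⁻¹ := by group
    _ = (la R q * lb R v) * pt R * (la R q * lb R v)⁻¹ := by rw [h1]
    _ = la R q * (lb R v * pt R * (lb R v)⁻¹) * (la R q)⁻¹ := by group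
    _ = _ := by rw [h3, map_mul, map_inv]; group

theorem compat (p : FreeGroup (Fin n) × FreeGroup (Fin n)) :
    (f1 R).comp (MulEquiv.toMonoidHom (ph (act R) p)) =
      (MulEquiv.toMonoidHom (MulAut.conj (f2 R p))).comp (f1 R) := by
  ext q
  show f1 R (ph (act R) p (FreeGroup.of q)) = MulAut.conj (f2 R p) (f1 R (FreeGroup.of q))
  have e1 : ph (act R) p (FreeGroup.of q) = FreeGroup.of (act R p q) := by
    show FreeGroup.map (act R p) (FreeGroup.of q) = _
    rw [FreeGroup.map.of]
  rw [e1, f1_of, f1_of, MulAut.conj_apply, f2_apply]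
  have e2 : TT R (pre R (act R p q)) = TT R (p.1 * (pre R q * p.2⁻¹)) := by
    apply TT_eq
    rw [mk_pre, act_apply, map_mul, map_mul, map_inv, mk_pre, mul_assoc]
  rw [e2]
  have e3 := conj_lb R p.2 (pre R q)
  calc TT R (p.1 * (pre R q * p.2⁻¹)) = la R p.1 * TT R (pre R q * p.2⁻¹) * (la R p.1)⁻¹ := by
        unfold TT; rw [map_mul (la R) p.1]; group
    _ = _ := by rw [← e3]; group

/-- from the semidirect product to the presented group -/
noncomputable def toPG : Gr (act R) →* PG R := SemidirectProduct.lift (f1 R) (f2 R) (compat R)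

/-- the images of the generators in the semidirect product -/
def genIm : Gen n → Gr (act R)
  | none => SemidirectProduct.inl (FreeGroup.of 1)
  | some (false, i) => SemidirectProduct.inr (FreeGroup.of i, 1)
  | some (true, i) => SemidirectProduct.inr (1, FreeGroup.of i)

theorem inr_comm_one {p : FreeGroup (Fin n) × FreeGroup (Fin n)}
    (h : PresentedGroup.mk R p.1 = PresentedGroup.mk R p.2) :
    Commute (SemidirectProduct.inl (FreeGroup.of 1) : Gr (act R)) (SemidirectProduct.inr p) := by
  have e := SemidirectProduct.inl_aut (φ := ph (act R)) p (FreeGroup.of 1)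
  have e1 : ph (act R) p (FreeGroup.of 1) = FreeGroup.of 1 := by
    show FreeGroup.map (act R p) (FreeGroup.of 1) = _
    rw [FreeGroup.map.of, act_apply, h, mul_one, mul_inv_cancel]
  rw [e1] at e
  show (SemidirectProduct.inl (FreeGroup.of 1) : Gr (act R)) * (SemidirectProduct.inr p) =
    (SemidirectProduct.inr p) * (SemidirectProduct.inl (FreeGroup.of 1))
  conv_lhs => rw [e]
  rw [map_inv]; group

theorem genIm_rels : ∀ z ∈ RS R, FreeGroup.lift (genIm R) z = 1 := by
  have h1 : (FreeGroup.lift (genIm R)).comp (FreeGroup.lift (ga (n := n))) =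
      (SemidirectProduct.inr).comp (MonoidHom.inl _ _) := by
    ext i <;> simp [ga, genIm]
  rintro z ((⟨p, rfl⟩ | ⟨i, rfl⟩) | ⟨ρ, hρ, rfl⟩)
  · simp only [map_commutatorElement, commutatorElement_eq_one_iff_commute, ga, gb,
      FreeGroup.lift_apply_of, genIm]
    show _ * _ = _ * _
    rw [← map_mul, ← map_mul]
    simp
  · simp only [map_commutatorElement, commutatorElement_eq_one_iff_commute, ga, gb, gt,
      FreeGroup.lift_apply_of, genIm, map_mul]
    rw [← map_mul]
    apply inr_comm_one
    simp
  · simp only [map_commutatorElement, commutatorElement_eq_one_iff_commute]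
    have h2 := DFunLike.congr_fun h1 ρ
    rw [MonoidHom.comp_apply] at h2
    rw [h2]
    simp only [gt, FreeGroup.lift_apply_of, genIm]
    apply inr_comm_one
    show PresentedGroup.mk R ρ = PresentedGroup.mk R 1
    rw [map_one]
    exact PresentedGroup.one_of_mem hρ

/-- from the presented group to the semidirect product -/
noncomputable def ofPG : PG R →* Gr (act R) := PresentedGroup.toGroup (genIm_rels R)

theorem comp1 : (toPG R).comp (ofPG R) = MonoidHom.id _ := by
  apply PresentedGroup.ext
  rintro (_ | ⟨(_ | _), i⟩)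
  · show toPG R (ofPG R (PresentedGroup.of none)) = _
    unfold ofPG toPG
    rw [PresentedGroup.toGroup.of]
    simp only [genIm, SemidirectProduct.lift_inl, f1_of]
    have : TT R (pre R 1) = TT R 1 := TT_eq R (by rw [mk_pre, map_one])
    rw [this]
    unfold TT pt
    simp
  · show toPG R (ofPG R (PresentedGroup.of (some (false, i)))) = _
    unfold ofPG toPG
    rw [PresentedGroup.toGroup.of]
    simp only [genIm, SemidirectProduct.lift_inr, f2_apply]
    simp [la, pa]
  · show toPG R (ofPG R (PresentedGroup.of (some (true, i)))) = _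
    unfold ofPG toPG
    rw [PresentedGroup.toGroup.of]
    simp only [genIm, SemidirectProduct.lift_inr, f2_apply]
    simp [lb, pb]

theorem ofPG_la (u : FreeGroup (Fin n)) : ofPG R (la R u) = SemidirectProduct.inr (u, 1) := by
  have : (ofPG R).comp (la R) = (SemidirectProduct.inr).comp (MonoidHom.inl _ _) := by
    ext i <;> simp [la, ofPG, pa, genIm]
  exact DFunLike.congr_fun this u

theorem ofPG_lb (u : FreeGroup (Fin n)) : ofPG R (lb R u) = SemidirectProduct.inr (1, u) := by
  have : (ofPG R).comp (lb R) = (SemidirectProduct.inr).comp (MonoidHom.inr _ _) := by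
    ext i <;> simp [lb, ofPG, pb, genIm]
  exact DFunLike.congr_fun this u

theorem comp2 : (ofPG R).comp (toPG R) = MonoidHom.id _ := by
  apply SemidirectProduct.hom_ext
  · apply FreeGroup.ext_hom
    intro q
    show ofPG R (toPG R (SemidirectProduct.inl (FreeGroup.of q))) =
      SemidirectProduct.inl (FreeGroup.of q)
    have e0 : toPG R (SemidirectProduct.inl (FreeGroup.of q)) = TT R (pre R q) := by
      unfold toPG
      rw [SemidirectProduct.lift_inl, f1_of]
    have e1 : ofPG R (pt R) = SemidirectProduct.inl (FreeGroup.of 1) := by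
      unfold ofPG pt
      rw [PresentedGroup.toGroup.of]
      rfl
    have e2 : ph (act R) (pre R q, 1) (FreeGroup.of 1) = FreeGroup.of q := by
      show FreeGroup.map (act R (pre R q, 1)) (FreeGroup.of 1) = _
      rw [FreeGroup.map.of, act_apply, mk_pre, map_one, inv_one, mul_one, mul_one]
    rw [e0, TT, map_mul, map_mul, map_inv, ofPG_la, e1, ← map_inv, ← SemidirectProduct.inl_aut, e2]
  · apply MonoidHom.ext
    intro p
    show ofPG R (toPG R (SemidirectProduct.inr p)) = SemidirectProduct.inr p
    have e0 : toPG R (SemidirectProduct.inr p) = la R p.1 * lb R p.2 := by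
      unfold toPG
      rw [SemidirectProduct.lift_inr, f2_apply]
    rw [e0, map_mul, ofPG_la, ofPG_lb, ← map_mul]
    simp

/-- the isomorphism -/
noncomputable def isoPG : PG R ≃* Gr (act R) :=
  MonoidHom.toMulEquiv (ofPG R) (toPG R) (comp1 R) (comp2 R)

theorem fp (hR : R.Finite) : Group.IsFinitelyPresented (Gr (act R)) := by
  have : Finite (RS R) := (RS_finite R hR).to_subtype
  exact Group.IsFinitelyPresented.equiv (isoPG R)

end pres

end Pool.Agent.R646.P
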