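import Mathlib

set_option autoImplicit false
set_option linter.unusedSectionVars false

/-!
# Common beginnings of reduced words
-/

namespace Pool.Agent.R646.P

open FreeGroup

variable {Ω : Type*} [DecidableEq Ω]

/-- Two lists split off a maximal common beginning. -/
theorem exists_common {β : Type*} (a b : List β) : ∃ p a' b', a = p ++ a' ∧ b = p ++ b' ∧
    ∀ x xs y ys, a' = x :: xs → b' = y :: ys → x ≠ y := by
  classical
  induction a generalizing b with
  | nil => exact ⟨[], [], b, rfl, rfl, by simp⟩
  | cons x xs ih =>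
    cases b with
    | nil => exact ⟨[], x :: xs, [], rfl, rfl, by simp⟩
    | cons y ys =>
      by_cases h : x = y
      · subst h
        obtain ⟨p, a', b', h1, h2, h3⟩ := ih ys
        exact ⟨x :: p, a', b', by simp [h1], by simp [h2], h3⟩
      · refine ⟨[], x :: xs, y :: ys, rfl, rfl, ?_⟩
        intro x' xs' y' ys' e1 e2
        simp only [List.cons.injEq] at e1 e2
        rw [← e1.1, ← e2.1]
        exact h

theorem isReduced_append {L1 L2 : List (Ω × Bool)} : IsReduced (L1 ++ L2) ↔
    IsReduced L1 ∧ IsReduced L2 ∧ ∀ x ∈ L1.getLast?, ∀ y ∈ L2.head?, (x.1 = y.1 → x.2 = y.2) := by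
  unfold FreeGroup.IsReduced
  rw [List.isChain_append]

theorem IsReduced.left {L1 L2 : List (Ω × Bool)} (h : IsReduced (L1 ++ L2)) : IsReduced L1 :=
  (isReduced_append.mp h).1

theorem IsReduced.right {L1 L2 : List (Ω × Bool)} (h : IsReduced (L1 ++ L2)) : IsReduced L2 :=
  (isReduced_append.mp h).2.1

theorem toWord_of_reduced {L : List (Ω × Bool)} (h : IsReduced L) : (mk L).toWord = L := by
  rw [toWord_mk, h.reduce_eq]

theorem isReduced_invRev {L : List (Ω × Bool)} (h : IsReduced L) : IsReduced (invRev L) := by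
  have : invRev L = ((mk L)⁻¹).toWord := by
    rw [toWord_inv, toWord_of_reduced h]
  rw [this]
  exact isReduced_toWord

/-- The structure of `v⁻¹ w`. -/
theorem exists_split (v w : FreeGroup Ω) : ∃ p a b, v.toWord = p ++ a ∧ w.toWord = p ++ b ∧
    (v⁻¹ * w).toWord = invRev a ++ b ∧ (∀ x xs y ys, a = x :: xs → b = y :: ys → x ≠ y) := by
  obtain ⟨p, a, b, h1, h2, h3⟩ := exists_common v.toWord w.toWord
  refine ⟨p, a, b, h1, h2, ?_, h3⟩
  have hv : IsReduced (p ++ a) := h1 ▸ isReduced_toWord
  have hw : IsReduced (p ++ b) := h2 ▸ isReduced_toWord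
  have hr : IsReduced (invRev a ++ b) := by
    rw [isReduced_append]
    refine ⟨isReduced_invRev (IsReduced.right hv), IsReduced.right hw, ?_⟩
    intro x hx y hy hxy
    cases a with
    | nil => simp [invRev] at hx
    | cons x' xs =>
      cases b with
      | nil => simp at hy
      | cons y' ys =>
        have hne := h3 x' xs y' ys rfl rfl
        simp only [invRev, List.map_cons, List.reverse_cons, List.getLast?_append,
          List.getLast?_singleton, Option.some_or, Option.mem_def, Option.some.injEq] at hx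
        simp only [List.head?_cons, Option.mem_def, Option.some.injEq] at hy
        subst hx hy
        simp only at hxy ⊢
        by_contra h
        apply hne
        apply Prod.ext hxy
        revert h
        cases x'.2 <;> cases y'.2 <;> simp
  have e : v⁻¹ * w = mk (invRev a ++ b) := by
    have e1 : v = mk (p ++ a) := by rw [← h1, mk_toWord]
    have e2 : w = mk (p ++ b) := by rw [← h2, mk_toWord]
    rw [e1, e2, ← mul_mk, ← mul_mk, ← mul_mk, ← inv_mk]
    group
  rw [e, toWord_of_reduced hr]

/-- Twice the length of the common beginning, plus the distance. -/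
theorem split_norm (v w : FreeGroup Ω) : ∃ p a b, v.toWord = p ++ a ∧ w.toWord = p ++ b ∧
    (v⁻¹ * w).norm = a.length + b.length ∧ v.norm = p.length + a.length ∧
    w.norm = p.length + b.length ∧ (∀ x xs y ys, a = x :: xs → b = y :: ys → x ≠ y) := by
  obtain ⟨p, a, b, h1, h2, h3, h4⟩ := exists_split v w
  refine ⟨p, a, b, h1, h2, ?_, ?_, ?_, h4⟩
  · unfold FreeGroup.norm; rw [h3]; simp
  · unfold FreeGroup.norm; rw [h1]; simp
  · unfold FreeGroup.norm; rw [h2]; simp

/-- length of the common beginning -/
def cp (v w : FreeGroup Ω) : ℕ := (v.norm + w.norm - (v⁻¹ * w).norm) / 2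

theorem two_cp (v w : FreeGroup Ω) : 2 * cp v w + (v⁻¹ * w).norm = v.norm + w.norm := by
  obtain ⟨p, a, b, -, -, h1, h2, h3, -⟩ := split_norm v w
  unfold cp
  rw [h1, h2, h3]
  omega

theorem cp_eq {v w : FreeGroup Ω} {p a b : List (Ω × Bool)}
    (h1 : (v⁻¹ * w).norm = a.length + b.length) (h2 : v.norm = p.length + a.length)
    (h3 : w.norm = p.length + b.length) : cp v w = p.length := by
  have := two_cp v w
  omega

theorem le_cp_iff {v w : FreeGroup Ω} {m : ℕ} : m ≤ cp v w ↔
    m ≤ v.norm ∧ m ≤ w.norm ∧ v.toWord.take m = w.toWord.take m := by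
  constructor
  · intro h
    obtain ⟨p, a, b, e1, e2, h1, h2, h3, -⟩ := split_norm v w
    rw [cp_eq h1 h2 h3] at h
    refine ⟨by omega, by omega, ?_⟩
    rw [e1, e2, List.take_append_of_le_length h, List.take_append_of_le_length h]
  · rintro ⟨h1, h2, h3⟩
    set P := v.toWord.take m with hP
    have e1 : v = mk P * mk (v.toWord.drop m) := by
      rw [mul_mk, hP, List.take_append_drop, mk_toWord]
    have e2 : w = mk P * mk (w.toWord.drop m) := by
      rw [mul_mk, h3, List.take_append_drop, mk_toWord]
    have e3 : v⁻¹ * w = (mk (v.toWord.drop m))⁻¹ * mk (w.toWord.drop m) := by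
      calc v⁻¹ * w = (mk P * mk (v.toWord.drop m))⁻¹ * (mk P * mk (w.toWord.drop m)) := by
            rw [← e1, ← e2]
        _ = _ := by group
    have e4 : (v⁻¹ * w).norm ≤ (v.norm - m) + (w.norm - m) := by
      rw [e3]
      refine (FreeGroup.norm_mul_le _ _).trans ?_
      rw [norm_inv_eq]
      refine add_le_add ((norm_mk_le).trans ?_) ((norm_mk_le).trans ?_)
      · rw [List.length_drop]; rfl
      · rw [List.length_drop]; rfl
    have := two_cp v w
    omega

theorem cp_comm (v w : FreeGroup Ω) : cp v w = cp w v := by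
  have h1 := two_cp v w
  have h2 := two_cp w v
  have h3 : (v⁻¹ * w).norm = (w⁻¹ * v).norm := by
    rw [← norm_inv_eq (x := v⁻¹ * w)]
    congr 1
    group
  omega

/-- The ultrametric inequality. -/
theorem cp_ultra (u v w : FreeGroup Ω) : min (cp u v) (cp v w) ≤ cp u w := by
  have h1 := le_cp_iff.mp (min_le_left (cp u v) (cp v w))
  have h2 := le_cp_iff.mp (min_le_right (cp u v) (cp v w))
  exact le_cp_iff.mpr ⟨h1.1, h2.2.1, h1.2.2.trans h2.2.2⟩

/-- reduced products -/
theorem norm_mul_iff (u v : FreeGroup Ω) : (u * v).norm = u.norm + v.norm ↔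
    (u * v).toWord = u.toWord ++ v.toWord := by
  constructor
  · intro h
    have hs : List.Sublist (u * v).toWord (u.toWord ++ v.toWord) := toWord_mul_sublist u v
    exact hs.eq_of_length (by simpa [FreeGroup.norm] using h)
  · intro h
    unfold FreeGroup.norm
    rw [h]; simp

/-- overlap of reduced products -/
theorem reduced_overlap {u v w : FreeGroup Ω} (h1 : (u * v).norm = u.norm + v.norm)
    (h2 : (v * w).norm = v.norm + w.norm) (hv : v ≠ 1) :
    (u * v * w).norm = u.norm + v.norm + w.norm := by
  rw [norm_mul_iff] at h1 h2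
  have r1 : IsReduced (u.toWord ++ v.toWord) := h1 ▸ isReduced_toWord
  have r2 : IsReduced (v.toWord ++ w.toWord) := h2 ▸ isReduced_toWord
  have r3 := r1.append_overlap r2 (by rwa [Ne, toWord_eq_nil_iff])
  have e : u * v * w = mk (u.toWord ++ v.toWord ++ w.toWord) := by
    rw [← mul_mk, ← mul_mk, mk_toWord, mk_toWord, mk_toWord]
  unfold FreeGroup.norm
  rw [e, toWord_of_reduced r3]
  simp [add_assoc]

/-- The automorphism of a free group permuting the letters. -/
def pAut (Ω : Type*) : Equiv.Perm Ω →* MulAut (FreeGroup Ω) where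
  toFun σ := freeGroupCongr σ
  map_one' := freeGroupCongr_refl
  map_mul' σ τ := by
    ext x
    induction x using FreeGroup.induction_on <;> simp_all

theorem toWord_pAut (σ : Equiv.Perm Ω) (x : FreeGroup Ω) :
    (pAut Ω σ x).toWord = x.toWord.map (fun p => (σ p.1, p.2)) := by
  have h1 : pAut Ω σ x = mk (x.toWord.map (fun p => (σ p.1, p.2))) := by
    show FreeGroup.map σ x = _
    conv_lhs => rw [← mk_toWord (x := x)]
    exact map.mk
  rw [h1, toWord_of_reduced]
  have h2 : IsReduced x.toWord := isReduced_toWord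
  unfold FreeGroup.IsReduced at h2 ⊢
  rw [List.isChain_map]
  refine h2.imp ?_
  intro a b hab h
  exact hab (σ.injective h)

theorem norm_pAut (σ : Equiv.Perm Ω) (x : FreeGroup Ω) : (pAut Ω σ x).norm = x.norm := by
  unfold FreeGroup.norm
  rw [toWord_pAut, List.length_map]

end Pool.Agent.R646.P
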